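import Mathlib

/-!
# Powers and components of a partial injective map
-/

namespace Pool.Q24.PI

universe u

variable {X : Type u}

/-- The `n`-th power of the injective map `α` between subsets of `X` (composition from left to
right). -/
def pw (α : X ≃. X) : ℕ → (X ≃. X)
  | 0 => PEquiv.refl X
  | n + 1 => (pw α n).trans α

theorem pw_zero (α : X ≃. X) (x y : X) : pw α 0 x = some y ↔ x = y := by
  simp [pw]

theorem pw_one (α : X ≃. X) (x y : X) : pw α 1 x = some y ↔ α x = some y := by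
  simp [pw]

theorem pw_succ (α : X ≃. X) (n : ℕ) (x y : X) :
    pw α (n + 1) x = some y ↔ ∃ z, pw α n x = some z ∧ α z = some y := by
  simp only [pw]
  exact PEquiv.trans_eq_some _ _ _ _

theorem pw_succ' (α : X ≃. X) (n : ℕ) : ∀ (x y : X),
    pw α (n + 1) x = some y ↔ ∃ z, α x = some z ∧ pw α n z = some y := by
  induction n with
  | zero =>
    intro x y
    rw [pw_one]
    constructor
    · intro h; exact ⟨y, h, (pw_zero α y y).2 rfl⟩
    · rintro ⟨z, h1, h2⟩
      rw [pw_zero] at h2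
      rw [h1, h2]
  | succ n ih =>
    intro x y
    rw [pw_succ]
    constructor
    · rintro ⟨z, h1, h2⟩
      obtain ⟨w, h3, h4⟩ := (ih x z).1 h1
      exact ⟨w, h3, (pw_succ α n w y).2 ⟨z, h4, h2⟩⟩
    · rintro ⟨w, h3, h4⟩
      obtain ⟨z, h5, h6⟩ := (pw_succ α n w y).1 h4
      exact ⟨z, (ih x z).2 ⟨w, h3, h5⟩, h6⟩

theorem inj' (α : X ≃. X) {a b c : X} (h1 : α a = some c) (h2 : α b = some c) : a = b :=
  PEquiv.inj α h1 h2

theorem func' (α : X ≃. X) {a b c : X} (h1 : α a = some b) (h2 : α a = some c) : b = c := by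
  rw [h1] at h2
  exact Option.some.inj h2

/-- `P α k x y`: the point `y` is reached from `x` by `k` steps (backwards if `k < 0`). -/
def P (α : X ≃. X) (k : ℤ) (x y : X) : Prop :=
  (0 ≤ k ∧ pw α k.toNat x = some y) ∨ (k < 0 ∧ pw α (-k).toNat y = some x)

theorem P_nat (α : X ≃. X) (n : ℕ) (x y : X) : P α n x y ↔ pw α n x = some y := by
  unfold P
  constructor
  · rintro (⟨_, h⟩ | ⟨h, _⟩)
    · simpa using h
    · omega
  · intro h
    left
    exact ⟨by omega, by simpa using h⟩

theorem P_neg (α : X ≃. X) (n : ℕ) (x y : X) : P α (-n) x y ↔ pw α n y = some x := by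
  unfold P
  constructor
  · rintro (⟨h0, h⟩ | ⟨_, h⟩)
    · have : n = 0 := by omega
      subst this
      simp only [Nat.cast_zero, neg_zero, Int.toNat_zero] at h
      rw [pw_zero] at h ⊢
      exact h.symm
    · simpa using h
  · intro h
    rcases Nat.eq_zero_or_pos n with h0 | h0
    · subst h0
      left
      refine ⟨by simp, ?_⟩
      simp only [Nat.cast_zero, neg_zero, Int.toNat_zero]
      rw [pw_zero] at h ⊢
      exact h.symm
    · right
      exact ⟨by omega, by simpa using h⟩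

theorem P_zero (α : X ≃. X) (x y : X) : P α 0 x y ↔ x = y := by
  have := P_nat α 0 x y
  rw [pw_zero] at this
  simpa using this

theorem P_refl (α : X ≃. X) (x : X) : P α 0 x x := (P_zero α x x).2 rfl

theorem P_one (α : X ≃. X) (x y : X) : P α 1 x y ↔ α x = some y := by
  have := P_nat α 1 x y
  rw [pw_one] at this
  simpa using this

theorem P_symm (α : X ≃. X) {k : ℤ} {x y : X} (h : P α k x y) : P α (-k) y x := by
  obtain ⟨n, rfl | rfl⟩ := Int.eq_nat_or_neg k
  · rw [P_neg]; exact (P_nat α n x y).1 h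
  · rw [neg_neg, P_nat]; exact (P_neg α n x y).1 h

theorem P_step (α : X ≃. X) {k : ℤ} {x y z : X} (h : P α k x y) (hz : α y = some z) :
    P α (k + 1) x z := by
  obtain ⟨n, rfl | rfl⟩ := Int.eq_nat_or_neg k
  · have : ((n : ℤ) + 1) = ((n + 1 : ℕ) : ℤ) := by push_cast; rfl
    rw [this, P_nat, pw_succ]
    exact ⟨y, (P_nat α n x y).1 h, hz⟩
  · rcases n with _ | n
    · simp only [Nat.cast_zero, neg_zero, P_zero] at h
      subst h
      simpa using (P_one α x z).2 hz
    · have e : (-((n + 1 : ℕ) : ℤ) + 1) = -(n : ℤ) := by push_cast; ring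
      rw [e, P_neg]
      obtain ⟨w, h1, h2⟩ := (pw_succ' α n y x).1 ((P_neg α (n + 1) x y).1 h)
      rw [func' α hz h1]
      exact h2

theorem P_back (α : X ≃. X) {k : ℤ} {x y z : X} (h : P α k x y) (hz : α z = some y) :
    P α (k - 1) x z := by
  obtain ⟨n, rfl | rfl⟩ := Int.eq_nat_or_neg k
  · rcases n with _ | n
    · simp only [Nat.cast_zero, P_zero] at h
      subst h
      have : ((0 : ℕ) : ℤ) - 1 = -((1 : ℕ) : ℤ) := by norm_num
      rw [this, P_neg, pw_one]
      exact hz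
    · have e : (((n + 1 : ℕ) : ℤ) - 1) = (n : ℤ) := by push_cast; ring
      rw [e, P_nat]
      obtain ⟨w, h1, h2⟩ := (pw_succ α n x y).1 ((P_nat α (n + 1) x y).1 h)
      rw [inj' α hz h2]
      exact h1
  · have e : (-(n : ℤ) - 1) = -((n + 1 : ℕ) : ℤ) := by push_cast; ring
    rw [e, P_neg, pw_succ']
    exact ⟨y, hz, (P_neg α n x y).1 h⟩

theorem P_add (α : X ≃. X) {k l : ℤ} {x y z : X} (h : P α k x y) (h2 : P α l y z) :
    P α (k + l) x z := by
  obtain ⟨n, rfl | rfl⟩ := Int.eq_nat_or_neg l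
  · rw [P_nat] at h2
    induction n generalizing z with
    | zero =>
      rw [pw_zero] at h2
      subst h2
      simpa using h
    | succ n ih =>
      obtain ⟨w, h3, h4⟩ := (pw_succ α n y z).1 h2
      have := P_step α (ih h3) h4
      push_cast
      rw [← add_assoc]
      exact this
  · rw [P_neg] at h2
    induction n generalizing z with
    | zero =>
      rw [pw_zero] at h2
      subst h2
      simpa using h
    | succ n ih =>
      obtain ⟨w, h3, h4⟩ := (pw_succ' α n z y).1 h2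
      have := P_back α (ih h4) h3
      push_cast
      have e : k + (-1 + -(n : ℤ)) = k + -(n : ℤ) - 1 := by ring
      rw [neg_add_rev, e]
      exact this

theorem P_func (α : X ≃. X) {k : ℤ} {x y z : X} (h : P α k x y) (h2 : P α k x z) : y = z := by
  have := P_add α (P_symm α h) h2
  rw [neg_add_cancel] at this
  exact (P_zero α y z).1 this

theorem P_inj (α : X ≃. X) {k : ℤ} {x y z : X} (h : P α k x z) (h2 : P α k y z) : x = y := by
  have := P_add α h (P_symm α h2)
  rw [add_neg_cancel] at this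
  exact (P_zero α x y).1 this

/-- change of the number of steps by a period -/
theorem P_per (α : X ≃. X) {k l : ℤ} {x y : X} (h : P α k x y) (h2 : P α l x x) :
    P α (l + k) x y := P_add α h2 h

/-- `k` steps are possible from `x`. -/
def D (α : X ≃. X) (k : ℤ) (x : X) : Prop := ∃ y, P α k x y

theorem D_zero (α : X ≃. X) (x : X) : D α 0 x := ⟨x, P_refl α x⟩

theorem D_shift (α : X ≃. X) {k : ℤ} {x y : X} (h : P α k x y) (j : ℤ) :
    D α j y ↔ D α (k + j) x := by
  constructor
  · rintro ⟨z, hz⟩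
    exact ⟨z, P_add α h hz⟩
  · rintro ⟨z, hz⟩
    refine ⟨z, ?_⟩
    have := P_add α (P_symm α h) hz
    rwa [neg_add_cancel_left] at this

theorem D_nat_of_succ (α : X ≃. X) {n : ℕ} {x : X} (h : D α ((n + 1 : ℕ) : ℤ) x) :
    D α (n : ℤ) x := by
  obtain ⟨y, hy⟩ := h
  rw [P_nat, pw_succ] at hy
  obtain ⟨z, hz, _⟩ := hy
  exact ⟨z, (P_nat α n x z).2 hz⟩

theorem D_neg_of_succ (α : X ≃. X) {n : ℕ} {x : X} (h : D α (-((n + 1 : ℕ) : ℤ)) x) :
    D α (-(n : ℤ)) x := by
  obtain ⟨y, hy⟩ := h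
  rw [P_neg, pw_succ'] at hy
  obtain ⟨z, _, hz⟩ := hy
  exact ⟨z, (P_neg α n x z).2 hz⟩

theorem D_nat_mono (α : X ≃. X) {m n : ℕ} (hmn : m ≤ n) {x : X} (h : D α (n : ℤ) x) :
    D α (m : ℤ) x := by
  induction n with
  | zero =>
    have : m = 0 := by omega
    subst this; exact h
  | succ n ih =>
    rcases Nat.lt_or_ge m (n + 1) with h1 | h1
    · exact ih (by omega) (D_nat_of_succ α h)
    · have : m = n + 1 := by omega
      subst this; exact h

theorem D_neg_mono (α : X ≃. X) {m n : ℕ} (hmn : m ≤ n) {x : X} (h : D α (-(n : ℤ)) x) :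
    D α (-(m : ℤ)) x := by
  induction n with
  | zero =>
    have : m = 0 := by omega
    subst this; exact h
  | succ n ih =>
    rcases Nat.lt_or_ge m (n + 1) with h1 | h1
    · exact ih (by omega) (D_neg_of_succ α h)
    · have : m = n + 1 := by omega
      subst this; exact h

theorem D_pos (α : X ≃. X) {j k : ℤ} (h0 : 0 ≤ j) (hjk : j ≤ k) {x : X} (h : D α k x) :
    D α j x := by
  obtain ⟨m, rfl⟩ := Int.eq_ofNat_of_zero_le h0
  obtain ⟨n, rfl⟩ := Int.eq_ofNat_of_zero_le (h0.trans hjk)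
  exact D_nat_mono α (by omega) h

theorem D_nonpos (α : X ≃. X) {j k : ℤ} (h0 : j ≤ 0) (hjk : k ≤ j) {x : X} (h : D α k x) :
    D α j x := by
  obtain ⟨m, hm⟩ := Int.eq_ofNat_of_zero_le (show 0 ≤ -j by omega)
  obtain ⟨n, hn⟩ := Int.eq_ofNat_of_zero_le (show 0 ≤ -k by omega)
  have e1 : j = -(m : ℤ) := by omega
  have e2 : k = -(n : ℤ) := by omega
  rw [e1]
  rw [e2] at h
  exact D_neg_mono α (by omega) h

/-- The component of `x`. -/
def comp (α : X ≃. X) (x : X) : Set X :=
  {y | ∃ m n z, pw α m x = some z ∧ pw α n y = some z}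

theorem mem_comp (α : X ≃. X) (x y : X) : y ∈ comp α x ↔ ∃ k : ℤ, P α k x y := by
  constructor
  · rintro ⟨m, n, z, h1, h2⟩
    exact ⟨_, P_add α ((P_nat α m x z).2 h1) ((P_neg α n z y).2 h2)⟩
  · rintro ⟨k, hk⟩
    obtain ⟨n, rfl | rfl⟩ := Int.eq_nat_or_neg k
    · exact ⟨n, 0, y, (P_nat α n x y).1 hk, (pw_zero α y y).2 rfl⟩
    · exact ⟨0, n, x, (pw_zero α x x).2 rfl, (P_neg α n x y).1 hk⟩

theorem self_mem_comp (α : X ≃. X) (x : X) : x ∈ comp α x :=
  (mem_comp α x x).2 ⟨0, P_refl α x⟩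

theorem comp_eq (α : X ≃. X) {x y : X} (k : ℤ) (h : P α k x y) : comp α x = comp α y := by
  ext z
  rw [mem_comp, mem_comp]
  constructor
  · rintro ⟨l, hl⟩
    exact ⟨_, P_add α (P_symm α h) hl⟩
  · rintro ⟨l, hl⟩
    exact ⟨_, P_add α h hl⟩

theorem comp_eq_iff (α : X ≃. X) (x y : X) : comp α x = comp α y ↔ ∃ k : ℤ, P α k x y := by
  constructor
  · intro h
    have : y ∈ comp α x := by rw [h]; exact self_mem_comp α y
    exact (mem_comp α x y).1 this
  · rintro ⟨k, hk⟩
    exact comp_eq α k hk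

end Pool.Q24.PI
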