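import Mathlib

/-!
# Injective choice functions between possibly infinite sets
-/

namespace Pool.Q24.PI

universe u

open Cardinal

/-- transfinite injective choice -/
theorem choice_inj {A B : Type u} (t : A → Set B) (h : ∀ a, #A ≤ #(t a)) :
    ∃ f : A → B, Function.Injective f ∧ ∀ a, f a ∈ t a := by
  classical
  obtain ⟨_, _, hA⟩ := Cardinal.exists_ord_eq_type_lt A
  have key : ∀ (a : A) (g : ∀ b, b < a → B), ∃ c, c ∈ t a ∧ ∀ b (hb : b < a), g b hb ≠ c := by
    intro a g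
    by_contra hcon
    push Not at hcon
    have h1 : #(t a) ≤ #(Set.Iio a) := by
      choose b hb hgb using fun c : t a => hcon c.1 c.2
      refine Cardinal.mk_le_of_injective (f := fun c => (⟨b c, hb c⟩ : Set.Iio a)) ?_
      intro c c' e
      have e' : b c = b c' := congrArg Subtype.val e
      apply Subtype.ext
      rw [← hgb c, ← hgb c']
      congr
    exact absurd ((h a).trans h1) (not_le.2 (Cardinal.mk_Iio_lt a hA))
  choose F hF1 hF2 using key
  obtain ⟨f, hf⟩ : ∃ f : A → B, ∀ a, f a = F a (fun b _ => f b) :=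
    ⟨WellFounded.fix wellFounded_lt (fun a g => F a g), fun a => WellFounded.fix_eq _ _ _⟩
  refine ⟨f, ?_, fun a => by rw [hf]; exact hF1 a _⟩
  intro a a' e
  rcases lt_trichotomy a a' with h1 | h1 | h1
  · exfalso
    have := hF2 a' (fun b _ => f b) a h1
    rw [← hf a'] at this
    exact this e
  · exact h1
  · exfalso
    have := hF2 a (fun b _ => f b) a' h1
    rw [← hf a] at this
    exact this e.symm

/-- gluing injections along a colouring -/
theorem glue {A B : Type u} {Q : Type*} (qa : A → Q) (qb : B → Q) (R : A → B → Prop)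
    (h : ∀ i : Q, ∃ f : {a // qa a = i} → {b // qb b = i}, Function.Injective f ∧
      ∀ a, R a.1 (f a).1) :
    ∃ f : A → B, Function.Injective f ∧ ∀ a, R a (f a) := by
  choose F hF hR using h
  refine ⟨fun a => (F (qa a) ⟨a, rfl⟩).1, ?_, fun a => hR (qa a) ⟨a, rfl⟩⟩
  intro a a' e
  have e' : (F (qa a) ⟨a, rfl⟩).1 = (F (qa a') ⟨a', rfl⟩).1 := e
  have h1 := (F (qa a) ⟨a, rfl⟩).2
  have h2 := (F (qa a') ⟨a', rfl⟩).2
  have h3 : qa a' = qa a := by rw [← h2, ← e', h1]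
  have key : ∀ (i : Q) (hi : qa a' = i), (F (qa a') ⟨a', rfl⟩).1 = (F i ⟨a', hi⟩).1 := by
    intro i hi
    subst hi
    rfl
  rw [key (qa a) h3] at e'
  have := hF (qa a) (Subtype.ext e')
  exact congrArg Subtype.val this

/-- nested choice -/
theorem nested_aux {A B : Type u} {W : Type*} [LinearOrder W] [WellFoundedLT W] (r : A → W)
    (ρ : B → W) (h : ∀ w, #{a // w ≤ r a} ≤ #{b // w ≤ ρ b}) (κ : Cardinal.{u}) :
    ∀ w, #{b // w ≤ ρ b} = κ →
      ∃ f : {a // w ≤ r a} → B, Function.Injective f ∧ ∀ a, r a.1 ≤ ρ (f a) := by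
  classical
  induction κ using WellFoundedLT.induction with
  | ind κ IH =>
  intro w hw
  have hmono : ∀ w', w ≤ w' → #{b // w' ≤ ρ b} ≤ κ := by
    intro w' hw'
    rw [← hw]
    exact Cardinal.mk_subtype_mono (fun b hb => hw'.trans hb)
  by_cases hE : ∃ w', w ≤ w' ∧ #{b // w' ≤ ρ b} < κ
  · obtain ⟨w1, ⟨hw1, hlt⟩, hmin⟩ : ∃ w1, (w ≤ w1 ∧ #{b // w1 ≤ ρ b} < κ) ∧
        ∀ w', w ≤ w' → w' < w1 → κ ≤ #{b // w' ≤ ρ b} := by
      refine ⟨WellFounded.min (wellFounded_lt) {w' | w ≤ w' ∧ #{b // w' ≤ ρ b} < κ} hE,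
        WellFounded.min_mem wellFounded_lt _ hE, ?_⟩
      intro w' h1 h2
      by_contra h3
      exact WellFounded.not_lt_min wellFounded_lt
        (s := {w' | w ≤ w' ∧ #{b // w' ≤ ρ b} < κ}) ⟨h1, not_le.1 h3⟩ h2
    obtain ⟨f1, hf1, hf1r⟩ := IH _ hlt w1 rfl
    have hrng : #(Set.range f1) ≤ #{a // w1 ≤ r a} := Cardinal.mk_range_le
    have hsum : #{a // w ≤ r a ∧ r a < w1} + #{a // w1 ≤ r a} ≤ κ := by
      have h1 : #{a // w ≤ r a ∧ r a < w1} + #{a // w1 ≤ r a} ≤ #{a // w ≤ r a} := by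
        rw [Cardinal.add_def]
        refine Cardinal.mk_le_of_injective (f := fun s => Sum.elim
          (fun a : {a // w ≤ r a ∧ r a < w1} => (⟨a.1, a.2.1⟩ : {a // w ≤ r a}))
          (fun a : {a // w1 ≤ r a} => (⟨a.1, hw1.trans a.2⟩ : {a // w ≤ r a})) s) ?_
        rintro (a | a) (b | b) e
        · simp only [Sum.elim_inl, Subtype.mk.injEq] at e
          rw [Subtype.ext e]
        · simp only [Sum.elim_inl, Sum.elim_inr, Subtype.mk.injEq] at e
          exfalso
          have := a.2.2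
          rw [e] at this
          exact absurd b.2 (not_le.2 this)
        · simp only [Sum.elim_inl, Sum.elim_inr, Subtype.mk.injEq] at e
          exfalso
          have := b.2.2
          rw [← e] at this
          exact absurd a.2 (not_le.2 this)
        · simp only [Sum.elim_inr, Subtype.mk.injEq] at e
          rw [Subtype.ext e]
      exact h1.trans ((h w).trans hw.le)
    obtain ⟨f2, hf2, hf2r⟩ := choice_inj (A := {a // w ≤ r a ∧ r a < w1})
      (fun a => {b | r a.1 ≤ ρ b ∧ b ∉ Set.range f1}) (by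
        intro a
        by_contra hcon
        have hcon' := not_le.1 hcon
        have h1 : κ ≤ #({b | r a.1 ≤ ρ b ∧ b ∉ Set.range f1} : Set B) + #(Set.range f1) := by
          refine (hmin (r a.1) a.2.1 a.2.2).trans ?_
          refine le_trans ?_ (Cardinal.mk_union_le _ _)
          refine Cardinal.mk_le_mk_of_subset (s := {b | r a.1 ≤ ρ b}) ?_
          intro b hb
          by_cases h2 : b ∈ Set.range f1
          · exact Or.inr h2
          · exact Or.inl ⟨hb, h2⟩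
        rcases le_or_gt ℵ₀ κ with hinf | hfin
        · have h2 : #({b | r a.1 ≤ ρ b ∧ b ∉ Set.range f1} : Set B) < κ :=
            hcon'.trans_le ((self_le_add_right _ _).trans hsum)
          have h3 : #(Set.range f1) < κ := hrng.trans_lt ((h w1).trans_lt hlt)
          exact absurd h1 (not_le.2 (Cardinal.add_lt_of_lt hinf h2 h3))
        · have h4 : #(Set.range f1) < ℵ₀ :=
            (hrng.trans ((self_le_add_left _ _).trans hsum)).trans_lt hfin
          have h5 : #{a // w ≤ r a ∧ r a < w1} + #(Set.range f1) ≤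
              #({b | r a.1 ≤ ρ b ∧ b ∉ Set.range f1} : Set B) + #(Set.range f1) :=
            (add_le_add_right hrng _).trans (hsum.trans h1)
          exact hcon ((Cardinal.add_le_add_iff_of_lt_aleph0 h4).1 h5))
    refine ⟨fun a => if ha : r a.1 < w1 then f2 ⟨a.1, a.2, ha⟩ else f1 ⟨a.1, not_lt.1 ha⟩,
      ?_, ?_⟩
    · intro a a' e
      by_cases ha : r a.1 < w1 <;> by_cases ha' : r a'.1 < w1 <;>
        simp only [ha, ha', ↓reduceDIte] at e
      · have := hf2 e
        simp only [Subtype.mk.injEq] at this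
        exact Subtype.ext this
      · exfalso
        exact (hf2r ⟨a.1, a.2, ha⟩).2 ⟨_, e.symm⟩
      · exfalso
        exact (hf2r ⟨a'.1, a'.2, ha'⟩).2 ⟨_, e⟩
      · have := hf1 e
        simp only [Subtype.mk.injEq] at this
        exact Subtype.ext this
    · intro a
      by_cases ha : r a.1 < w1
      · simp only [ha, ↓reduceDIte]
        exact (hf2r ⟨a.1, a.2, ha⟩).1
      · simp only [ha, ↓reduceDIte]
        exact hf1r ⟨a.1, not_lt.1 ha⟩
  · push Not at hE
    exact choice_inj (fun a : {a // w ≤ r a} => {b | r a.1 ≤ ρ b}) (by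
      intro a
      refine ((h w).trans hw.le).trans ?_
      exact hE _ a.2)

theorem nested {A B : Type u} {W : Type*} [LinearOrder W] [WellFoundedLT W] [OrderBot W]
    (r : A → W) (ρ : B → W) (h : ∀ w, #{a // w ≤ r a} ≤ #{b // w ≤ ρ b}) :
    ∃ f : A → B, Function.Injective f ∧ ∀ a, r a ≤ ρ (f a) := by
  obtain ⟨f, hf, hfr⟩ := nested_aux r ρ h _ ⊥ rfl
  refine ⟨fun a => f ⟨a, bot_le⟩, ?_, fun a => hfr ⟨a, bot_le⟩⟩
  intro a a' e
  have := hf e
  simpa using this

/-- combination of two partial matchings -/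
theorem partial_sb {A B : Type u} (A' : Set A) (B' : Set B) (R : A → B → Prop)
    (f : A' → B) (hf : Function.Injective f) (hR : ∀ a, R a.1 (f a))
    (g : B' → A) (hg : Function.Injective g) (hR' : ∀ b, R (g b) b.1) :
    ∃ E : Set (A × B), (∀ p ∈ E, ∀ q ∈ E, p.1 = q.1 → p = q) ∧
      (∀ p ∈ E, ∀ q ∈ E, p.2 = q.2 → p = q) ∧ (∀ p ∈ E, R p.1 p.2) ∧
      (∀ a ∈ A', ∃ p ∈ E, p.1 = a) ∧ (∀ b ∈ B', ∃ p ∈ E, p.2 = b) := by
  classical
  let Φ : Set A' →o Set A' :=
    { toFun := fun S => {a | ¬ ∃ b : B', g b = a.1 ∧ ∀ s ∈ S, f s ≠ b.1}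
      monotone' := by
        intro S T hST a ha
        rintro ⟨b, h1, h2⟩
        exact ha ⟨b, h1, fun s hs => h2 s (hST hs)⟩ }
  obtain ⟨S, hS⟩ : ∃ S, Φ S = S := ⟨OrderHom.lfp Φ, OrderHom.map_lfp Φ⟩
  have hS1 : ∀ a, a ∈ S ↔ ¬ ∃ b : B', g b = a.1 ∧ ∀ s ∈ S, f s ≠ b.1 := by
    intro a
    conv_lhs => rw [← hS]
    rfl
  refine ⟨{p | (∃ a ∈ S, p = (a.1, f a)) ∨ (∃ b : B', (∀ s ∈ S, f s ≠ b.1) ∧ p = (g b, b.1))},
    ?_, ?_, ?_, ?_, ?_⟩
  · rintro p (⟨a, ha, rfl⟩ | ⟨b, hb, rfl⟩) q (⟨a', ha', rfl⟩ | ⟨b', hb', rfl⟩) e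
    · have e' : a.1 = a'.1 := e
      rw [Subtype.ext e']
    · exfalso
      have e' : a.1 = g b' := e
      exact (hS1 a).1 ha ⟨b', e'.symm, hb'⟩
    · exfalso
      have e' : g b = a'.1 := e
      exact (hS1 a').1 ha' ⟨b, e', hb⟩
    · have e' : g b = g b' := e
      rw [hg e']
  · rintro p (⟨a, ha, rfl⟩ | ⟨b, hb, rfl⟩) q (⟨a', ha', rfl⟩ | ⟨b', hb', rfl⟩) e
    · have e' : f a = f a' := e
      rw [hf e']
    · exfalso
      exact hb' a ha e
    · exfalso
      exact hb a' ha' e.symm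
    · have e' : b.1 = b'.1 := e
      rw [Subtype.ext e']
  · rintro p (⟨a, ha, rfl⟩ | ⟨b, hb, rfl⟩)
    · exact hR a
    · exact hR' b
  · intro a ha
    by_cases h : (⟨a, ha⟩ : A') ∈ S
    · exact ⟨_, Or.inl ⟨⟨a, ha⟩, h, rfl⟩, rfl⟩
    · rw [hS1, not_not] at h
      obtain ⟨b, h1, h2⟩ := h
      exact ⟨_, Or.inr ⟨b, h2, rfl⟩, h1⟩
  · intro b hb
    by_cases h : ∃ s ∈ S, f s = b
    · obtain ⟨s, hs, he⟩ := h
      exact ⟨_, Or.inl ⟨s, hs, rfl⟩, he⟩
    · push Not at h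
      exact ⟨_, Or.inr ⟨⟨b, hb⟩, h, rfl⟩, rfl⟩

end Pool.Q24.PI
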