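import Pool.Agent.Q24.PI.Comb

/-!
# Hall's condition on intervals, for possibly infinite sets
-/

namespace Pool.Q24.PI

universe u

open Cardinal

variable {A B : Type u}

/-- the finite part -/
theorem hall_fin (a : A → ℕ) (b : B → ℕ) (ha : ∀ x, 2 ≤ a x)
    (h : ∀ s t, 2 ≤ s → s ≤ t →
      #{x // s ≤ a x ∧ a x ≤ t} ≤ #{y // s - 1 ≤ b y ∧ b y ≤ t + 1})
    (hfin : ∀ x, {y | a x ≤ b y + 1 ∧ b y ≤ a x + 1}.Finite) :
    ∃ f : A → B, Function.Injective f ∧ ∀ x, a x ≤ b (f x) + 1 ∧ b (f x) ≤ a x + 1 := by
  classical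
  have key : ∀ n, ∀ S : Finset A, (∀ x ∈ S, a x ≤ n) →
      S.card ≤ (S.biUnion (fun x => (hfin x).toFinset)).card := by
    intro n
    induction n using Nat.strong_induction_on with
    | _ n IH =>
    intro S hS
    by_cases hmax : ∃ x ∈ S, a x = n
    · obtain ⟨x0, hx0, hax0⟩ := hmax
      have hn2 : 2 ≤ n := by rw [← hax0]; exact ha x0
      -- the greatest number not near S
      obtain ⟨q, hq⟩ : ∃ q, q = Nat.findGreatest
          (fun i => ¬ ∃ x ∈ S, a x ≤ i + 1 ∧ i ≤ a x + 1) n := ⟨_, rfl⟩
      have hq0 : ¬ ∃ x ∈ S, a x ≤ q + 1 ∧ q ≤ a x + 1 := by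
        rw [hq]
        refine Nat.findGreatest_spec (P := fun i => ¬ ∃ x ∈ S, a x ≤ i + 1 ∧ i ≤ a x + 1)
          (m := 0) (Nat.zero_le n) ?_
        rintro ⟨x, _, h1, _⟩
        have := ha x
        omega
      have hqn : q ≤ n := by rw [hq]; exact Nat.findGreatest_le n
      have hq1 : ∀ i, q < i → i ≤ n → ∃ x ∈ S, a x ≤ i + 1 ∧ i ≤ a x + 1 := by
        intro i h1 h2
        by_contra h3
        rw [hq] at h1
        exact Nat.findGreatest_is_greatest h1 h2 h3
      have hqn' : q < n := by
        rcases Nat.lt_or_ge q n with h1 | h1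
        · exact h1
        · exfalso
          apply hq0
          exact ⟨x0, hx0, by omega, by omega⟩
      have hsplit : ∀ x ∈ S, a x + 2 ≤ q ∨ q + 2 ≤ a x := by
        intro x hx
        by_contra hcon
        push Not at hcon
        exact hq0 ⟨x, hx, by omega, by omega⟩
      have hS1 := IH (q - 2) (by omega) (S.filter (fun x => a x + 2 ≤ q)) (by
        intro x hx
        have := (Finset.mem_filter.1 hx).2
        omega)
      have hS2 : (S.filter (fun x => ¬ a x + 2 ≤ q)).card ≤
          ((S.filter (fun x => ¬ a x + 2 ≤ q)).biUnion (fun x => (hfin x).toFinset)).card := by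
        have h0 : q + 2 ≤ n := by
          rcases hsplit x0 hx0 with h1 | h1 <;> omega
        have h1 := h (q + 2) n (by omega) h0
        have h2 : ((S.filter (fun x => ¬ a x + 2 ≤ q)).card : Cardinal) ≤
            #{x // q + 2 ≤ a x ∧ a x ≤ n} := by
          rw [← Cardinal.mk_coe_finset]
          refine Cardinal.mk_le_of_injective (f := fun x => ⟨x.1, ?_⟩) ?_
          · have h3 := Finset.mem_filter.1 x.2
            rcases hsplit x.1 h3.1 with h4 | h4
            · exact absurd h4 h3.2
            · exact ⟨h4, hS x.1 h3.1⟩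
          · intro x x' e
            simp only [Subtype.mk.injEq] at e
            exact Subtype.ext e
        have h3 : #{y // q + 2 - 1 ≤ b y ∧ b y ≤ n + 1} ≤
            (((S.filter (fun x => ¬ a x + 2 ≤ q)).biUnion
              (fun x => (hfin x).toFinset)).card : Cardinal) := by
          rw [← Cardinal.mk_coe_finset]
          refine Cardinal.mk_le_of_injective (f := fun y => ⟨y.1, ?_⟩) ?_
          · obtain ⟨h5, h6⟩ := y.2
            rw [Finset.mem_biUnion]
            rcases Nat.lt_or_ge (b y.1) (n + 1) with h7 | h7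
            · obtain ⟨x, hx, h8, h9⟩ := hq1 (b y.1) (by omega) (by omega)
              refine ⟨x, Finset.mem_filter.2 ⟨hx, ?_⟩, ?_⟩
              · rcases hsplit x hx with h10 | h10 <;> omega
              · rw [Set.Finite.mem_toFinset]
                exact ⟨h8, h9⟩
            · refine ⟨x0, Finset.mem_filter.2 ⟨hx0, by omega⟩, ?_⟩
              rw [Set.Finite.mem_toFinset]
              exact ⟨by omega, by omega⟩
          · intro x x' e
            simp only [Subtype.mk.injEq] at e
            exact Subtype.ext e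
        exact_mod_cast (h2.trans h1).trans h3
      rw [← Finset.card_filter_add_card_filter_not (s := S) (fun x => a x + 2 ≤ q)]
      refine (Nat.add_le_add hS1 hS2).trans ?_
      rw [← Finset.card_union_of_disjoint]
      · refine Finset.card_le_card ?_
        intro y hy
        rw [Finset.mem_union, Finset.mem_biUnion, Finset.mem_biUnion] at hy
        rw [Finset.mem_biUnion]
        rcases hy with ⟨x, hx, hy⟩ | ⟨x, hx, hy⟩
        · exact ⟨x, (Finset.mem_filter.1 hx).1, hy⟩
        · exact ⟨x, (Finset.mem_filter.1 hx).1, hy⟩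
      · rw [Finset.disjoint_left]
        intro y hy1 hy2
        rw [Finset.mem_biUnion] at hy1 hy2
        obtain ⟨x, hx, hxy⟩ := hy1
        obtain ⟨x', hx', hxy'⟩ := hy2
        rw [Set.Finite.mem_toFinset] at hxy hxy'
        have h1 := (Finset.mem_filter.1 hx).2
        have h2 := (Finset.mem_filter.1 hx')
        have h3 := hsplit x' h2.1
        have h4 := hxy.2
        have h5 := hxy'.1
        omega
    · push Not at hmax
      rcases S.eq_empty_or_nonempty with hemp | ⟨x, hx⟩
      · subst hemp; simp
      · have h1 := ha x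
        have h2 := hS x hx
        refine IH (n - 1) (by omega) S ?_
        intro x' hx'
        have := hS x' hx'
        have := hmax x' hx'
        omega
  obtain ⟨f, hf, hf2⟩ := (Finset.all_card_le_biUnion_card_iff_exists_injective
    (fun x => (hfin x).toFinset)).1 (by
      intro S
      exact key (S.sup a) S (fun x hx => Finset.le_sup hx))
  refine ⟨f, hf, ?_⟩
  intro x
  have := hf2 x
  rw [Set.Finite.mem_toFinset] at this
  exact this

theorem interval_hall (a : A → ℕ) (b : B → ℕ) (ha : ∀ x, 2 ≤ a x)
    (h : ∀ s t, 2 ≤ s → s ≤ t →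
      #{x // s ≤ a x ∧ a x ≤ t} ≤ #{y // s - 1 ≤ b y ∧ b y ≤ t + 1}) :
    ∃ f : A → B, Function.Injective f ∧ ∀ x, a x ≤ b (f x) + 1 ∧ b (f x) ≤ a x + 1 := by
  classical
  have hj : ∀ m : ℕ, ∃ j : ℕ, (m ≤ j + 1 ∧ j ≤ m + 1) ∧
      ∀ i, m ≤ i + 1 → i ≤ m + 1 → #{y // b y = i} ≤ #{y // b y = j} := by
    intro m
    obtain ⟨j, hj, hmax⟩ := Finset.exists_max_image (Finset.Icc (m - 1) (m + 1))
      (fun j => #{y // b y = j}) ⟨m, Finset.mem_Icc.2 ⟨by omega, by omega⟩⟩
    rw [Finset.mem_Icc] at hj
    refine ⟨j, ⟨by omega, by omega⟩, ?_⟩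
    intro i h1 h2
    exact hmax i (Finset.mem_Icc.2 ⟨by omega, by omega⟩)
  choose j hj hjmax using hj
  -- number of points of a given size
  have hone : ∀ m, 2 ≤ m → ℵ₀ ≤ #{y // b y = j m} → #{x // a x = m} ≤ #{y // b y = j m} := by
    intro m hm hinf
    have h1 : #{x // a x = m} ≤ #{x // m ≤ a x ∧ a x ≤ m} :=
      Cardinal.mk_subtype_mono (fun x hx => ⟨hx.ge, hx.le⟩)
    refine (h1.trans (h m m hm le_rfl)).trans ?_
    have h2 : #{y // m - 1 ≤ b y ∧ b y ≤ m + 1} ≤
        #{y // b y = m - 1} + #{y // b y = m} + #{y // b y = m + 1} := by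
      refine le_trans ?_ (add_le_add_left (Cardinal.mk_union_le {y | b y = m - 1} {y | b y = m}) _)
      refine le_trans ?_ (Cardinal.mk_union_le _ {y | b y = m + 1})
      refine Cardinal.mk_subtype_mono ?_
      rintro y ⟨h3, h4⟩
      rcases Nat.lt_or_ge (b y) m with h5 | h5
      · left; left; show b y = m - 1; omega
      · rcases Nat.lt_or_ge m (b y) with h6 | h6
        · right; show b y = m + 1; omega
        · left; right; show b y = m; omega
    refine h2.trans (Cardinal.add_le_of_le hinf (Cardinal.add_le_of_le hinf ?_ ?_) ?_)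
    · exact hjmax m (m - 1) (by omega) (by omega)
    · exact hjmax m m (by omega) (by omega)
    · exact hjmax m (m + 1) (by omega) (by omega)
  -- the infinite part
  obtain ⟨fi, hfi, hfi2⟩ := glue (A := {x // ℵ₀ ≤ #{y // b y = j (a x)}})
    (fun x => j (a x.1)) b (fun x y => b y = j (a x.1)) (by
      intro i
      by_cases hi : ℵ₀ ≤ #{y // b y = i}
      · have h1 : #{x : {x // ℵ₀ ≤ #{y // b y = j (a x)}} // j (a x.1) = i} ≤ #{y // b y = i} := by
          have h2 : ∀ m, ℵ₀ ≤ #{y // b y = j m} → j m = i → #{x // a x = m} ≤ #{y // b y = i} := by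
            intro m h3 h4
            rcases Nat.lt_or_ge m 2 with hm | hm
            · have : IsEmpty {x // a x = m} := ⟨fun x => by have := ha x.1; have := x.2; omega⟩
              rw [Cardinal.mk_eq_zero]
              exact bot_le
            · have := hone m hm h3
              rwa [h4] at this
          have h5 : ∀ m, #({x | a x = m ∧ j m = i ∧ ℵ₀ ≤ #{y // b y = j m}} : Set A) ≤
              #{y // b y = i} := by
            intro m
            by_cases h6 : j m = i ∧ ℵ₀ ≤ #{y // b y = j m}
            · exact (Cardinal.mk_subtype_mono (fun x hx => hx.1)).trans (h2 m h6.2 h6.1)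
            · have : IsEmpty ({x | a x = m ∧ j m = i ∧ ℵ₀ ≤ #{y // b y = j m}} : Set A) :=
                ⟨fun x => h6 x.2.2⟩
              rw [Cardinal.mk_eq_zero]
              exact bot_le
          refine le_trans (Cardinal.mk_le_of_injective (β :=
            (({x | a x = i - 1 ∧ j (i - 1) = i ∧ ℵ₀ ≤ #{y // b y = j (i - 1)}} ∪
              {x | a x = i ∧ j i = i ∧ ℵ₀ ≤ #{y // b y = j i}}) ∪
              {x | a x = i + 1 ∧ j (i + 1) = i ∧ ℵ₀ ≤ #{y // b y = j (i + 1)}} : Set A))
              (f := fun x => ⟨x.1.1, ?_⟩) ?_) ?_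
          · have h6 := x.2
            have h7 := x.1.2
            have h8 := (hj (a x.1.1)).1
            have h9 := (hj (a x.1.1)).2
            have h6' : j (a x.1.1) = i := h6
            rcases Nat.lt_or_ge (a x.1.1) i with h10 | h10
            · left; left
              have e : a x.1.1 = i - 1 := by omega
              rw [e] at h6' h7
              exact ⟨e, h6', h7⟩
            · rcases Nat.lt_or_ge i (a x.1.1) with h11 | h11
              · right
                have e : a x.1.1 = i + 1 := by omega
                rw [e] at h6' h7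
                exact ⟨e, h6', h7⟩
              · left; right
                have e : a x.1.1 = i := by omega
                rw [e] at h6' h7
                exact ⟨e, h6', h7⟩
          · intro x x' e
            simp only [Subtype.mk.injEq] at e
            exact Subtype.ext (Subtype.ext e)
          · refine (Cardinal.mk_union_le _ _).trans (Cardinal.add_le_of_le hi
              ((Cardinal.mk_union_le _ _).trans (Cardinal.add_le_of_le hi ?_ ?_)) ?_)
            · exact h5 _
            · exact h5 _
            · exact h5 _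
        obtain ⟨e⟩ := h1
        exact ⟨e, e.injective, fun x => (e x).2.trans x.2.symm⟩
      · have : IsEmpty {x : {x // ℵ₀ ≤ #{y // b y = j (a x)}} // j (a x.1) = i} := by
          refine ⟨fun x => hi ?_⟩
          have h1 := x.1.2
          have h2 : j (a x.1.1) = i := x.2
          rwa [h2] at h1
        exact ⟨fun x => this.elim x, fun x => this.elim x, fun x => this.elim x⟩)
  -- the finite part
  obtain ⟨ff, hff, hff2⟩ := hall_fin (A := {x // ¬ ℵ₀ ≤ #{y // b y = j (a x)}})
    (fun x => a x.1) b (fun x => ha x.1) (by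
      intro s t h1 h2
      refine le_trans (Cardinal.mk_le_of_injective (f := fun x => ⟨x.1.1, x.2⟩) ?_) (h s t h1 h2)
      intro x x' e
      simp only [Subtype.mk.injEq] at e
      exact Subtype.ext (Subtype.ext e)) (by
      intro x
      have hx := not_le.1 x.2
      have h1 : ∀ i, a x.1 ≤ i + 1 → i ≤ a x.1 + 1 → {y | b y = i}.Finite := by
        intro i h2 h3
        rw [← Cardinal.lt_aleph0_iff_set_finite]
        exact (hjmax (a x.1) i h2 h3).trans_lt hx
      refine (((h1 (a x.1 - 1) (by omega) (by omega)).union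
        (h1 (a x.1) (by omega) (by omega))).union
        (h1 (a x.1 + 1) (by omega) (by omega))).subset ?_
      rintro y ⟨h3, h4⟩
      rcases Nat.lt_or_ge (b y) (a x.1) with h5 | h5
      · left; left; show b y = a x.1 - 1; omega
      · rcases Nat.lt_or_ge (a x.1) (b y) with h6 | h6
        · right; show b y = a x.1 + 1; omega
        · left; right; show b y = a x.1; omega)
  have hdisj : ∀ x y, fi x ≠ ff y := by
    intro x y e
    have h1 := hfi2 x
    rw [e] at h1
    have h2 := hff2 y
    have h3 := hjmax (a y.1) (b (ff y)) h2.1 h2.2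
    rw [h1] at h3
    exact y.2 (x.2.trans h3)
  refine ⟨fun x => if hx : ℵ₀ ≤ #{y // b y = j (a x)} then fi ⟨x, hx⟩ else ff ⟨x, hx⟩, ?_, ?_⟩
  · intro x x' e
    by_cases hx : ℵ₀ ≤ #{y // b y = j (a x)} <;> by_cases hx' : ℵ₀ ≤ #{y // b y = j (a x')} <;>
      simp only [hx, hx', ↓reduceDIte] at e
    · have := hfi e
      simpa using this
    · exact absurd e (hdisj _ _)
    · exact absurd e.symm (hdisj _ _)
    · have := hff e
      simpa using this
  · intro x
    by_cases hx : ℵ₀ ≤ #{y // b y = j (a x)}
    · simp only [hx, ↓reduceDIte]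
      rw [hfi2 ⟨x, hx⟩]
      exact hj (a x)
    · simp only [hx, ↓reduceDIte]
      exact hff2 ⟨x, hx⟩

end Pool.Q24.PI
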