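import Pool.Agent.Q24.PI.Nec
import Pool.Agent.Q24.PI.Hall

/-!
# Numbers of components of the various kinds
-/

namespace Pool.Q24.PI

universe u

open Cardinal

variable {X : Type u}

/-- The number of components of `α` that contain a point with the property `p`. -/
noncomputable def num (α : X ≃. X) (p : X → Prop) : Cardinal.{u} :=
  #{C : Set X // ∃ x, p x ∧ C = comp α x}

/-- The number of cycles of length `n`. -/
noncomputable def cycles (α : X ≃. X) (n : ℕ) : Cardinal.{u} := num α (IsCyc α n)

/-- The number of double rays. -/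
noncomputable def doubleRays (α : X ≃. X) : Cardinal.{u} := num α (IsDouble α)

/-- The number of right rays. -/
noncomputable def rightRays (α : X ≃. X) : Cardinal.{u} := num α (IsRight α)

/-- The number of left rays. -/
noncomputable def leftRays (α : X ≃. X) : Cardinal.{u} := num α (IsLeft α)

/-- The number of finite chains with at least `a` and at most `b` points. -/
noncomputable def chainsBetween (α : X ≃. X) (a b : ℕ) : Cardinal.{u} :=
  num α (fun x => ∃ m, a ≤ m ∧ m ≤ b ∧ IsChain α m x)

/-- The number of finite chains with at least `a` points. -/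
noncomputable def chainsFrom (α : X ≃. X) (a : ℕ) : Cardinal.{u} :=
  num α (fun x => ∃ m, a ≤ m ∧ IsChain α m x)

/-- number of components with kind in `S` -/
noncomputable def cnt (α : X ≃. X) (S : K → Prop) : Cardinal.{u} := #{C : AC α // S (kd α C)}

theorem num_eq (α : X ≃. X) (S : K → Prop) (p : X → Prop)
    (hp : ∀ x, p x ↔ ∃ κ, S κ ∧ HK α κ x) : num α p = cnt α S := by
  refine Cardinal.mk_congr ⟨fun C => ⟨⟨C.1, ?_⟩, ?_⟩, fun D => ⟨D.1.1, ?_⟩, ?_, ?_⟩
  · obtain ⟨x, _, hx⟩ := C.2
    exact ⟨x, hx⟩
  · obtain ⟨x, hx, hC⟩ := C.2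
    obtain ⟨κ, hS, hk⟩ := (hp x).1 hx
    have : (⟨C.1, ⟨x, hC⟩⟩ : AC α) = mkC α x := Subtype.ext hC
    rw [this, kd_eq α hk]
    exact hS
  · exact ⟨bp α D.1, (hp _).2 ⟨_, D.2, bp_kind α D.1⟩, bp_comp α D.1⟩
  · intro C; rfl
  · intro D; rfl

theorem cycles_eq (α : X ≃. X) (n : ℕ) : cycles α n = cnt α (fun κ => κ = .cyc n) :=
  num_eq α _ _ (fun x => by simp [HK])

theorem doubleRays_eq (α : X ≃. X) : doubleRays α = cnt α (fun κ => κ = .dbl) :=
  num_eq α _ _ (fun x => by simp [HK])

theorem rightRays_eq (α : X ≃. X) : rightRays α = cnt α (fun κ => κ = .right) :=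
  num_eq α _ _ (fun x => by simp [HK])

theorem leftRays_eq (α : X ≃. X) : leftRays α = cnt α (fun κ => κ = .left) :=
  num_eq α _ _ (fun x => by simp [HK])

theorem chainsBetween_eq (α : X ≃. X) (a b : ℕ) :
    chainsBetween α a b = cnt α (fun κ => ∃ m, a ≤ m ∧ m ≤ b ∧ κ = .chain m) :=
  num_eq α _ _ (fun x => by
    constructor
    · rintro ⟨m, h1, h2, h3⟩
      exact ⟨.chain m, ⟨m, h1, h2, rfl⟩, h3⟩
    · rintro ⟨_, ⟨m, h1, h2, rfl⟩, h3⟩
      exact ⟨m, h1, h2, h3⟩)

theorem chainsFrom_eq (α : X ≃. X) (a : ℕ) :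
    chainsFrom α a = cnt α (fun κ => ∃ m, a ≤ m ∧ κ = .chain m) :=
  num_eq α _ _ (fun x => by
    constructor
    · rintro ⟨m, h1, h3⟩
      exact ⟨.chain m, ⟨m, h1, rfl⟩, h3⟩
    · rintro ⟨_, ⟨m, h1, rfl⟩, h3⟩
      exact ⟨m, h1, h3⟩)

theorem cnt_add (α : X ≃. X) (S T : K → Prop) (h : ∀ κ, S κ → ¬ T κ) :
    cnt α S + cnt α T = cnt α (fun κ => S κ ∨ T κ) := by
  unfold cnt
  have := Cardinal.mk_union_of_disjoint (S := {C : AC α | S (kd α C)})
    (T := {C : AC α | T (kd α C)}) (Set.disjoint_left.2 (fun C h1 h2 => h _ h1 h2))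
  exact this.symm

theorem cnt_le_of_map {α β : X ≃. X} {Rel : K → K → Prop}
    {f : {C : AC α // kd α C ≠ .chain 1} → AC β} (hf : Function.Injective f)
    (hR : ∀ C, Rel (kd α C.1) (kd β (f C))) (S T : K → Prop) (hS : ∀ κ, S κ → κ ≠ .chain 1)
    (hST : ∀ κ κ', S κ → Rel κ κ' → T κ') : cnt α S ≤ cnt β T := by
  refine Cardinal.mk_le_of_injective (f := fun C => ⟨f ⟨C.1, hS _ C.2⟩, ?_⟩) ?_
  · exact hST _ _ C.2 (hR ⟨C.1, hS _ C.2⟩)
  · intro C C' e
    simp only [Subtype.mk.injEq] at e
    have := hf e
    simp only [Subtype.mk.injEq] at this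
    exact Subtype.ext this

theorem le_of_cnt {α β : X ≃. X} {S T : K → Prop} (h : cnt α S ≤ cnt β T) :
    ∃ f : {C : AC α // S (kd α C)} → {D : AC β // T (kd β D)}, Function.Injective f := by
  obtain ⟨e⟩ := h
  exact ⟨e, e.injective⟩

/-- coarse kinds for partial conjugacy -/
def coarse2 : K → K
  | .cyc n => .cyc n
  | .dbl => .dbl
  | .right => .right
  | .left => .left
  | .chain _ => .chain 0

/-- coarse kinds for c-conjugacy -/
def coarse1 : K → K
  | .cyc n => .cyc n
  | .dbl => .dbl
  | .right => .dbl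
  | .left => .left
  | .chain _ => .left

/-- the number of points of a chain -/
def len : K → ℕ
  | .chain m => m
  | _ => 0

theorem simple_class {α β : X ≃. X} (κ : K) (h : cnt α (fun k => k = κ) ≤ cnt β (fun k => k = κ))
    (q : K → K) (hq : ∀ k, q k = κ ↔ k = κ) (R : K → K → Prop) (hR : R κ κ) :
    ∃ f : {C : {C : AC α // kd α C ≠ .chain 1} // q (kd α C.1) = κ} →
      {D : AC β // q (kd β D) = κ}, Function.Injective f ∧
      ∀ C, R (kd α C.1.1) (kd β (f C).1) := by
  obtain ⟨f, hf⟩ := le_of_cnt h
  refine ⟨fun C => ⟨(f ⟨C.1.1, (hq _).1 C.2⟩).1, (hq _).2 (f ⟨C.1.1, (hq _).1 C.2⟩).2⟩, ?_, ?_⟩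
  · intro C C' e
    simp only [Subtype.mk.injEq] at e
    have := hf (Subtype.ext e)
    simp only [Subtype.mk.injEq] at this
    exact Subtype.ext (Subtype.ext this)
  · intro C
    have h1 : kd α C.1.1 = κ := (hq _).1 C.2
    have h2 : kd β (f ⟨C.1.1, (hq _).1 C.2⟩).1 = κ := (f ⟨C.1.1, (hq _).1 C.2⟩).2
    have h3 : ∀ a b, a = κ → b = κ → R a b := by
      rintro a b rfl rfl
      exact hR
    exact h3 _ _ h1 h2

theorem exists_map2 {α β : X ≃. X}
    (h1 : ∀ n, cnt α (fun k => k = .cyc n) ≤ cnt β (fun k => k = .cyc n))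
    (h2 : cnt α (fun k => k = .dbl) ≤ cnt β (fun k => k = .dbl))
    (h3 : cnt α (fun k => k = .right) ≤ cnt β (fun k => k = .right))
    (h4 : cnt α (fun k => k = .left) ≤ cnt β (fun k => k = .left))
    (h5 : ∀ a b, 2 ≤ a → a ≤ b → cnt α (fun κ => ∃ m, a ≤ m ∧ m ≤ b ∧ κ = .chain m) ≤
      cnt β (fun κ => ∃ m, a - 1 ≤ m ∧ m ≤ b + 1 ∧ κ = .chain m)) :
    ∃ f : {C : AC α // kd α C ≠ .chain 1} → AC β, Function.Injective f ∧
      ∀ C, Rel2 (kd α C.1) (kd β (f C)) := by
  refine glue (A := {C : AC α // kd α C ≠ .chain 1}) (fun C => coarse2 (kd α C.1))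
    (fun D => coarse2 (kd β D)) (fun C D => Rel2 (kd α C.1) (kd β D)) ?_
  intro i
  rcases i with n | _ | _ | _ | m
  · refine simple_class (.cyc n) (h1 n) coarse2 ?_ Rel2 rfl
    intro k; cases k <;> simp [coarse2]
  · refine simple_class .dbl h2 coarse2 ?_ Rel2 trivial
    intro k; cases k <;> simp [coarse2]
  · refine simple_class .right h3 coarse2 ?_ Rel2 trivial
    intro k; cases k <;> simp [coarse2]
  · refine simple_class .left h4 coarse2 ?_ Rel2 trivial
    intro k; cases k <;> simp [coarse2]
  · rcases Nat.eq_zero_or_pos m with hm | hm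
    · subst hm
      have hch : ∀ k : K, coarse2 k = .chain 0 → ∃ m, k = .chain m := by
        intro k hk
        cases k with
        | chain m => exact ⟨m, rfl⟩
        | _ => simp [coarse2] at hk
      obtain ⟨f, hf, hf2⟩ := interval_hall
        (A := {C : {C : AC α // kd α C ≠ .chain 1} // coarse2 (kd α C.1) = .chain 0})
        (B := {D : AC β // coarse2 (kd β D) = .chain 0})
        (fun C => len (kd α C.1.1)) (fun D => len (kd β D.1)) (by
          intro C
          obtain ⟨m, hm⟩ := hch _ C.2
          have h6 := C.1.2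
          have h7 := kd_valid α C.1.1
          rw [hm] at h6 h7 ⊢
          have h8 : m ≠ 1 := by rintro rfl; exact h6 rfl
          have h9 : 0 < m := h7
          show 2 ≤ m
          omega) (by
          intro s t hs hst
          have h6 : #{x : {C : {C : AC α // kd α C ≠ .chain 1} // coarse2 (kd α C.1) = .chain 0}
              // s ≤ len (kd α x.1.1) ∧ len (kd α x.1.1) ≤ t} ≤
              cnt α (fun κ => ∃ m, s ≤ m ∧ m ≤ t ∧ κ = .chain m) := by
            refine Cardinal.mk_le_of_injective (f := fun x => ⟨x.1.1.1, ?_⟩) ?_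
            · obtain ⟨m, hm⟩ := hch _ x.1.2
              have h7 := x.2
              rw [hm] at h7
              exact ⟨m, h7.1, h7.2, hm⟩
            · intro x x' e
              simp only [Subtype.mk.injEq] at e
              exact Subtype.ext (Subtype.ext (Subtype.ext e))
          refine (h6.trans (h5 s t hs hst)).trans ?_
          refine Cardinal.mk_le_of_injective (f := fun D => ⟨⟨D.1, ?_⟩, ?_⟩) ?_
          · obtain ⟨m, _, _, hm⟩ := D.2
            rw [hm]; rfl
          · obtain ⟨m, h7, h8, hm⟩ := D.2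
            simp only
            rw [hm]
            exact ⟨h7, h8⟩
          · intro x x' e
            simp only [Subtype.mk.injEq] at e
            exact Subtype.ext e)
      refine ⟨f, hf, ?_⟩
      intro C
      obtain ⟨m, hm⟩ := hch _ C.2
      obtain ⟨m', hm'⟩ := hch _ (f C).2
      have h6 := hf2 C
      rw [hm, hm'] at h6
      rw [hm, hm']
      exact h6
    · have : IsEmpty {C : {C : AC α // kd α C ≠ .chain 1} // coarse2 (kd α C.1) = .chain m} := by
        refine ⟨fun C => ?_⟩
        have h6 := C.2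
        cases hk : kd α C.1.1 with
        | chain m' =>
          rw [hk] at h6
          simp only [coarse2, K.chain.injEq] at h6
          omega
        | _ => rw [hk] at h6; simp [coarse2] at h6
      exact ⟨fun x => this.elim x, fun x => this.elim x, fun x => this.elim x⟩

/-- rank of a kind among the right infinite kinds -/
def rk1 : K → ℕ
  | .dbl => 1
  | _ => 0

/-- rank of a kind among the kinds with a last point -/
def rk2 : K → ℕ∞
  | .left => ⊤
  | .chain m => m
  | _ => 0

theorem exists_map1 {α β : X ≃. X}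
    (h1 : ∀ n, cnt α (fun k => k = .cyc n) ≤ cnt β (fun k => k = .cyc n))
    (h2 : cnt α (fun k => k = .dbl) ≤ cnt β (fun k => k = .dbl))
    (h3 : cnt α (fun k => k = .dbl ∨ k = .right) ≤ cnt β (fun k => k = .dbl ∨ k = .right))
    (h4 : cnt α (fun k => k = .left) ≤ cnt β (fun k => k = .left))
    (h5 : ∀ a, 2 ≤ a → cnt α (fun κ => κ = .left ∨ ∃ m, a ≤ m ∧ κ = .chain m) ≤
      cnt β (fun κ => κ = .left ∨ ∃ m, a ≤ m ∧ κ = .chain m)) :
    ∃ f : {C : AC α // kd α C ≠ .chain 1} → AC β, Function.Injective f ∧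
      ∀ C, Rel1 (kd α C.1) (kd β (f C)) := by
  refine glue (A := {C : AC α // kd α C ≠ .chain 1}) (fun C => coarse1 (kd α C.1))
    (fun D => coarse1 (kd β D)) (fun C D => Rel1 (kd α C.1) (kd β D)) ?_
  intro i
  rcases i with n | _ | _ | _ | m
  · refine simple_class (.cyc n) (h1 n) coarse1 ?_ Rel1 rfl
    intro k; cases k <;> simp [coarse1]
  · have hdr : ∀ k : K, coarse1 k = .dbl ↔ (k = .dbl ∨ k = .right) := by
      intro k; cases k <;> simp [coarse1]
    obtain ⟨f, hf, hf2⟩ := nested
      (A := {C : {C : AC α // kd α C ≠ .chain 1} // coarse1 (kd α C.1) = .dbl})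
      (B := {D : AC β // coarse1 (kd β D) = .dbl}) (W := ℕ)
      (fun C => rk1 (kd α C.1.1)) (fun D => rk1 (kd β D.1)) (by
        intro w
        rcases Nat.eq_zero_or_pos w with hw | hw
        · subst hw
          have h6 : #{x : {C : {C : AC α // kd α C ≠ .chain 1} // coarse1 (kd α C.1) = .dbl}
              // 0 ≤ rk1 (kd α x.1.1)} ≤ cnt α (fun k => k = .dbl ∨ k = .right) := by
            refine Cardinal.mk_le_of_injective (f := fun x => ⟨x.1.1.1, (hdr _).1 x.1.2⟩) ?_
            intro x x' e
            simp only [Subtype.mk.injEq] at e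
            exact Subtype.ext (Subtype.ext (Subtype.ext e))
          refine (h6.trans h3).trans ?_
          refine Cardinal.mk_le_of_injective
            (f := fun D => ⟨⟨D.1, (hdr _).2 D.2⟩, Nat.zero_le _⟩) ?_
          intro x x' e
          simp only [Subtype.mk.injEq] at e
          exact Subtype.ext e
        · rcases Nat.lt_or_ge w 2 with hw2 | hw2
          · have : w = 1 := by omega
            subst this
            have hrk : ∀ k : K, 1 ≤ rk1 k → k = .dbl := by
              intro k; cases k <;> simp [rk1]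
            have h6 : #{x : {C : {C : AC α // kd α C ≠ .chain 1} // coarse1 (kd α C.1) = .dbl}
                // 1 ≤ rk1 (kd α x.1.1)} ≤ cnt α (fun k => k = .dbl) := by
              refine Cardinal.mk_le_of_injective (f := fun x => ⟨x.1.1.1, hrk _ x.2⟩) ?_
              intro x x' e
              simp only [Subtype.mk.injEq] at e
              exact Subtype.ext (Subtype.ext (Subtype.ext e))
            refine (h6.trans h2).trans ?_
            refine Cardinal.mk_le_of_injective
              (f := fun D => ⟨⟨D.1, (hdr _).2 (Or.inl D.2)⟩, by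
                have := D.2
                simp only
                rw [this]
                exact le_refl 1⟩) ?_
            intro x x' e
            simp only [Subtype.mk.injEq] at e
            exact Subtype.ext e
          · have hrk : ∀ k : K, rk1 k ≤ 1 := by
              intro k; cases k <;> simp [rk1]
            have : IsEmpty {x : {C : {C : AC α // kd α C ≠ .chain 1} //
                coarse1 (kd α C.1) = .dbl} // w ≤ rk1 (kd α x.1.1)} :=
              ⟨fun x => by have := x.2; have := hrk (kd α x.1.1.1); omega⟩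
            rw [Cardinal.mk_eq_zero]
            exact bot_le)
    refine ⟨f, hf, ?_⟩
    intro C
    have h6 := hf2 C
    rcases (hdr _).1 C.2 with h7 | h7 <;> rcases (hdr _).1 (f C).2 with h8 | h8 <;>
      rw [h7, h8] at h6 ⊢ <;> simp [Rel1, rk1] at h6 ⊢
  · have : IsEmpty {C : {C : AC α // kd α C ≠ .chain 1} // coarse1 (kd α C.1) = .right} := by
      refine ⟨fun C => ?_⟩
      have h6 := C.2
      cases hk : kd α C.1.1 <;> rw [hk] at h6 <;> simp [coarse1] at h6
    exact ⟨fun x => this.elim x, fun x => this.elim x, fun x => this.elim x⟩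
  · have hlc : ∀ k : K, coarse1 k = .left ↔ (k = .left ∨ ∃ m, k = .chain m) := by
      intro k; cases k <;> simp [coarse1]
    have hcnt : ∀ a : ℕ, cnt β (fun κ => κ = .left ∨ ∃ m, a ≤ m ∧ κ = .chain m) ≤
        #{D : {D : AC β // coarse1 (kd β D) = .left} // (a : ℕ∞) ≤ rk2 (kd β D.1)} := by
      intro a
      refine Cardinal.mk_le_of_injective (f := fun D => ⟨⟨D.1, (hlc _).2 ?_⟩, ?_⟩) ?_
      · rcases D.2 with h7 | ⟨m, _, h7⟩
        · exact Or.inl h7
        · exact Or.inr ⟨m, h7⟩
      · simp only
        rcases D.2 with h7 | ⟨m, h8, h7⟩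
        · rw [h7]; exact le_top
        · rw [h7]
          show (a : ℕ∞) ≤ (m : ℕ∞)
          exact_mod_cast h8
      · intro x x' e
        simp only [Subtype.mk.injEq] at e
        exact Subtype.ext e
    have hval : ∀ C : {C : AC α // kd α C ≠ .chain 1}, ∀ m, kd α C.1 = .chain m → 2 ≤ m := by
      intro C m hm
      have h6 := C.2
      have h7 := kd_valid α C.1
      rw [hm] at h6 h7
      have h8 : m ≠ 1 := by rintro rfl; exact h6 rfl
      have h9 : 0 < m := h7
      omega
    have hcnt' : ∀ a : ℕ, 2 ≤ a → #{x : {C : {C : AC α // kd α C ≠ .chain 1} //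
          coarse1 (kd α C.1) = .left} // (a : ℕ∞) ≤ rk2 (kd α x.1.1)} ≤
        cnt α (fun κ => κ = .left ∨ ∃ m, a ≤ m ∧ κ = .chain m) := by
      intro a ha
      refine Cardinal.mk_le_of_injective (f := fun x => ⟨x.1.1.1, ?_⟩) ?_
      · rcases (hlc _).1 x.1.2 with h7 | ⟨m, h7⟩
        · exact Or.inl h7
        · refine Or.inr ⟨m, ?_, h7⟩
          have h8 := x.2
          rw [h7] at h8
          have h9 : (a : ℕ∞) ≤ (m : ℕ∞) := h8
          exact_mod_cast h9
      · intro x x' e
        simp only [Subtype.mk.injEq] at e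
        exact Subtype.ext (Subtype.ext (Subtype.ext e))
    obtain ⟨f, hf, hf2⟩ := nested
      (A := {C : {C : AC α // kd α C ≠ .chain 1} // coarse1 (kd α C.1) = .left})
      (B := {D : AC β // coarse1 (kd β D) = .left}) (W := ℕ∞)
      (fun C => rk2 (kd α C.1.1)) (fun D => rk2 (kd β D.1)) (by
        intro w
        induction w using ENat.recTopCoe with
        | top =>
          have hrk : ∀ k : K, ⊤ ≤ rk2 k → k = .left := by
            intro k; cases k <;> simp [rk2]
          have h6 : #{x : {C : {C : AC α // kd α C ≠ .chain 1} // coarse1 (kd α C.1) = .left}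
              // ⊤ ≤ rk2 (kd α x.1.1)} ≤ cnt α (fun k => k = .left) := by
            refine Cardinal.mk_le_of_injective (f := fun x => ⟨x.1.1.1, hrk _ x.2⟩) ?_
            intro x x' e
            simp only [Subtype.mk.injEq] at e
            exact Subtype.ext (Subtype.ext (Subtype.ext e))
          refine (h6.trans h4).trans ?_
          refine Cardinal.mk_le_of_injective
            (f := fun D => ⟨⟨D.1, (hlc _).2 (Or.inl D.2)⟩, by
              have := D.2
              simp only
              rw [this]
              exact le_refl _⟩) ?_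
          intro x x' e
          simp only [Subtype.mk.injEq] at e
          exact Subtype.ext e
        | coe w =>
          rcases Nat.lt_or_ge w 2 with hw | hw
          · have h6 : #{x : {C : {C : AC α // kd α C ≠ .chain 1} //
                coarse1 (kd α C.1) = .left} // (w : ℕ∞) ≤ rk2 (kd α x.1.1)} ≤
                #{x : {C : {C : AC α // kd α C ≠ .chain 1} //
                coarse1 (kd α C.1) = .left} // ((2 : ℕ) : ℕ∞) ≤ rk2 (kd α x.1.1)} := by
              refine Cardinal.mk_subtype_mono ?_
              intro x _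
              rcases (hlc _).1 x.2 with h7 | ⟨m, h7⟩
              · show ((2 : ℕ) : ℕ∞) ≤ rk2 (kd α x.1.1)
                rw [h7]; exact le_top
              · show ((2 : ℕ) : ℕ∞) ≤ rk2 (kd α x.1.1)
                rw [h7]
                have := hval x.1 m h7
                show ((2 : ℕ) : ℕ∞) ≤ (m : ℕ∞)
                exact_mod_cast this
            refine h6.trans ((hcnt' 2 le_rfl).trans ((h5 2 le_rfl).trans ((hcnt 2).trans ?_)))
            refine Cardinal.mk_subtype_mono ?_
            intro x hx
            refine le_trans ?_ hx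
            exact_mod_cast hw.le
          · exact (hcnt' w hw).trans ((h5 w hw).trans (hcnt w)))
    refine ⟨f, hf, ?_⟩
    intro C
    have h6 := hf2 C
    rcases (hlc _).1 C.2 with h7 | ⟨m, h7⟩ <;> rcases (hlc _).1 (f C).2 with h8 | ⟨m', h8⟩
    · rw [h7, h8]; trivial
    · exfalso
      rw [h7, h8] at h6
      simp [rk2] at h6
    · rw [h7, h8]; trivial
    · rw [h7, h8] at h6 ⊢
      simp only [rk2] at h6
      show m ≤ m'
      exact_mod_cast h6
  · have : IsEmpty {C : {C : AC α // kd α C ≠ .chain 1} // coarse1 (kd α C.1) = .chain m} := by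
      refine ⟨fun C => ?_⟩
      have h6 := C.2
      cases hk : kd α C.1.1 <;> rw [hk] at h6 <;> simp [coarse1] at h6
    exact ⟨fun x => this.elim x, fun x => this.elim x, fun x => this.elim x⟩

end Pool.Q24.PI
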