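import Pool.Agent.Q24.PI.Basic

/-!
# Kinds of components
-/

namespace Pool.Q24.PI

universe u

variable {X : Type u}

/-- `x` lies on a cycle of length `n`. -/
def IsCyc (α : X ≃. X) (n : ℕ) (x : X) : Prop :=
  0 < n ∧ pw α n x = some x ∧ ∀ j, 0 < j → j < n → pw α j x ≠ some x

/-- `x` lies on a double ray `⋯ → x₋₁ → x₀ → x₁ → ⋯`. -/
def IsDouble (α : X ≃. X) (x : X) : Prop :=
  (∀ n, ∃ y, pw α n x = some y) ∧ (∀ n, ∃ y, pw α n y = some x) ∧
    ∀ n, 0 < n → pw α n x ≠ some x

/-- `x` is the first point of a right ray `x = x₀ → x₁ → x₂ → ⋯`. -/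
def IsRight (α : X ≃. X) (x : X) : Prop :=
  (∀ y, α y ≠ some x) ∧ ∀ n, ∃ y, pw α n x = some y

/-- `x` is the last point of a left ray `⋯ → x₋₂ → x₋₁ → x₀ = x`. -/
def IsLeft (α : X ≃. X) (x : X) : Prop :=
  α x = none ∧ ∀ n, ∃ y, pw α n y = some x

/-- `x` is the first point of a finite chain `x = x₁ → x₂ → ⋯ → xₘ` with exactly `m` points. -/
def IsChain (α : X ≃. X) (m : ℕ) (x : X) : Prop :=
  1 ≤ m ∧ (∀ y, α y ≠ some x) ∧ ∃ y, pw α (m - 1) x = some y ∧ α y = none

/-- the kinds of components -/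
inductive K : Type
  | cyc (n : ℕ)
  | dbl
  | right
  | left
  | chain (m : ℕ)

/-- `x` is a base point of a component of kind `κ` -/
def HK (α : X ≃. X) : K → X → Prop
  | .cyc n => IsCyc α n
  | .dbl => IsDouble α
  | .right => IsRight α
  | .left => IsLeft α
  | .chain m => IsChain α m

/-- the interval of a kind -/
def J : K → ℤ → Prop
  | .cyc _, _ => True
  | .dbl, _ => True
  | .right, k => 0 ≤ k
  | .left, k => k ≤ 0
  | .chain m, k => 0 ≤ k ∧ k < m

/-- the periods of a kind -/
def Per : K → ℤ → Prop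
  | .cyc n, k => (n : ℤ) ∣ k
  | .dbl, k => k = 0
  | .right, k => k = 0
  | .left, k => k = 0
  | .chain _, k => k = 0

/-- admissible kinds -/
def Valid : K → Prop
  | .cyc n => 0 < n
  | .chain m => 0 < m
  | _ => True

/-- the size of a kind -/
def sz : K → ℤ
  | .chain m => m
  | _ => 0

theorem hk_valid (α : X ≃. X) (κ : K) (x : X) (h : HK α κ x) : Valid κ := by
  cases κ with
  | cyc n => exact h.1
  | chain m => exact h.1
  | dbl => trivial
  | right => trivial
  | left => trivial

theorem per_mul (α : X ≃. X) {n : ℤ} {x : X} (h : P α n x x) (q : ℕ) : P α (q * n) x x := by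
  induction q with
  | zero => simpa using P_refl α x
  | succ q ih =>
    have := P_add α ih h
    have e : ((q + 1 : ℕ) : ℤ) * n = q * n + n := by push_cast; ring
    rw [e]
    exact this

theorem per_zmul (α : X ≃. X) {n : ℤ} {x : X} (h : P α n x x) (q : ℤ) : P α (q * n) x x := by
  obtain ⟨m, rfl | rfl⟩ := Int.eq_nat_or_neg q
  · exact per_mul α h m
  · have := P_symm α (per_mul α h m)
    rwa [← neg_mul] at this

theorem D_of_per (α : X ≃. X) {n : ℤ} {x : X} (hn : 0 < n) (h : P α n x x) (k : ℤ) : D α k x := by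
  rcases le_total 0 k with hk | hk
  · refine D_pos α hk ?_ ⟨x, per_zmul α h k⟩
    nlinarith
  · refine D_nonpos α hk ?_ ⟨x, per_zmul α h k⟩
    nlinarith

theorem per_bound (α : X ≃. X) {k : ℤ} {x : X} (hk : k ≠ 0) (h : P α k x x) (j : ℤ) :
    D α j x := by
  rcases lt_or_gt_of_ne hk with h1 | h1
  · have := P_symm α h
    exact D_of_per α (by omega) this j
  · exact D_of_per α h1 h j

theorem not_D_neg_one (α : X ≃. X) {x : X} (h : ∀ y, α y ≠ some x) : ¬ D α (-1) x := by
  rintro ⟨y, hy⟩
  have := P_symm α hy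
  rw [neg_neg, P_one] at this
  exact h y this

theorem not_D_one (α : X ≃. X) {x : X} (h : α x = none) : ¬ D α 1 x := by
  rintro ⟨y, hy⟩
  rw [P_one, h] at hy
  exact absurd hy (by simp)

theorem nonneg_of_D (α : X ≃. X) {x : X} (h : ¬ D α (-1) x) {k : ℤ} (hk : D α k x) : 0 ≤ k := by
  by_contra h0
  exact h (D_nonpos α (by norm_num) (by omega) hk)

theorem nonpos_of_D (α : X ≃. X) {x : X} (h : ¬ D α 1 x) {k : ℤ} (hk : D α k x) : k ≤ 0 := by
  by_contra h0
  exact h (D_pos α (by norm_num) (by omega) hk)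

theorem hk_D (α : X ≃. X) (κ : K) (x : X) (h : HK α κ x) (k : ℤ) : D α k x ↔ J κ k := by
  cases κ with
  | cyc n =>
    refine ⟨fun _ => trivial, fun _ => ?_⟩
    refine D_of_per α (n := n) (by have := h.1; omega) ?_ k
    rw [P_nat]; exact h.2.1
  | dbl =>
    refine ⟨fun _ => trivial, fun _ => ?_⟩
    obtain ⟨n, rfl | rfl⟩ := Int.eq_nat_or_neg k
    · obtain ⟨y, hy⟩ := h.1 n
      exact ⟨y, (P_nat α n x y).2 hy⟩
    · obtain ⟨y, hy⟩ := h.2.1 n
      exact ⟨y, (P_neg α n x y).2 hy⟩
  | right =>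
    constructor
    · intro hk
      exact nonneg_of_D α (not_D_neg_one α h.1) hk
    · intro hk
      obtain ⟨n, rfl⟩ := Int.eq_ofNat_of_zero_le (show 0 ≤ k from hk)
      obtain ⟨y, hy⟩ := h.2 n
      exact ⟨y, (P_nat α n x y).2 hy⟩
  | left =>
    constructor
    · intro hk
      exact nonpos_of_D α (not_D_one α h.1) hk
    · intro hk
      have hk' : k ≤ 0 := hk
      obtain ⟨n, hn⟩ := Int.eq_ofNat_of_zero_le (show 0 ≤ -k by omega)
      have e : k = -(n : ℤ) := by omega
      obtain ⟨y, hy⟩ := h.2 n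
      rw [e]
      exact ⟨y, (P_neg α n x y).2 hy⟩
  | chain m =>
    obtain ⟨hm, hi, y, hy, ht⟩ := h
    have hy' : P α ((m - 1 : ℕ) : ℤ) x y := (P_nat α _ x y).2 hy
    constructor
    · intro hk
      have h0 := nonneg_of_D α (not_D_neg_one α hi) hk
      refine ⟨h0, ?_⟩
      have h1 := (D_shift α hy' (k - ((m - 1 : ℕ) : ℤ))).2 (by rwa [add_sub_cancel])
      have h2 := nonpos_of_D α (not_D_one α ht) h1
      omega
    · rintro ⟨h0, h1⟩
      exact D_pos α h0 (by omega) ⟨y, hy'⟩

theorem hk_P (α : X ≃. X) (κ : K) (x : X) (h : HK α κ x) (k : ℤ) : P α k x x ↔ Per κ k := by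
  have hJ := hk_D α κ x h
  cases κ with
  | cyc n =>
    obtain ⟨h0, h1, h2⟩ := h
    have h1' : P α (n : ℤ) x x := (P_nat α n x x).2 h1
    constructor
    · intro hk
      have e := Int.emod_add_mul_ediv k n
      have hr : P α (k % n) x x := by
        have h3 := P_add α hk (per_zmul α h1' (-(k / n)))
        have : k + -(k / n) * n = k % n := by linarith [mul_comm (n : ℤ) (k / n)]
        rwa [this] at h3
      have hnn : 0 ≤ k % n := Int.emod_nonneg k (by omega)
      have hlt : k % n < n := Int.emod_lt_of_pos k (by omega)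
      obtain ⟨j, hj⟩ := Int.eq_ofNat_of_zero_le hnn
      rw [hj] at hr hlt
      rcases Nat.eq_zero_or_pos j with h4 | h4
      · subst h4
        exact Int.dvd_of_emod_eq_zero (by simpa using hj)
      · exact absurd ((P_nat α j x x).1 hr) (h2 j h4 (by exact_mod_cast hlt))
    · rintro ⟨q, rfl⟩
      rw [mul_comm]
      exact per_zmul α h1' q
  | dbl =>
    constructor
    · intro hk
      by_contra h0
      have h0' : k ≠ 0 := h0
      obtain ⟨n, rfl | rfl⟩ := Int.eq_nat_or_neg k
      · exact h.2.2 n (by omega) ((P_nat α n x x).1 hk)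
      · exact h.2.2 n (by omega) ((P_neg α n x x).1 hk)
    · intro hk
      have hk' : k = 0 := hk
      subst hk'; exact P_refl α x
  | right =>
    constructor
    · intro hk
      by_contra h0
      have := (hJ (-1)).1 (per_bound α h0 hk (-1))
      have h5 : (0 : ℤ) ≤ -1 := this
      omega
    · intro hk
      have hk' : k = 0 := hk
      subst hk'; exact P_refl α x
  | left =>
    constructor
    · intro hk
      by_contra h0
      have := (hJ 1).1 (per_bound α h0 hk 1)
      have h5 : (1 : ℤ) ≤ 0 := this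
      omega
    · intro hk
      have hk' : k = 0 := hk
      subst hk'; exact P_refl α x
  | chain m =>
    constructor
    · intro hk
      by_contra h0
      have := (hJ (-1)).1 (per_bound α h0 hk (-1))
      have h5 : (0 : ℤ) ≤ -1 := this.1
      omega
    · intro hk
      have hk' : k = 0 := hk
      subst hk'; exact P_refl α x

theorem J_zero (κ : K) (hv : Valid κ) : J κ 0 := by
  cases κ with
  | cyc n => trivial
  | dbl => trivial
  | right => exact le_refl _
  | left => exact le_refl _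
  | chain m =>
    have : 0 < m := hv
    exact ⟨le_refl _, by omega⟩

/-- every point lies in a component of some kind -/
theorem exists_kind (α : X ≃. X) (x : X) : ∃ κ y k, P α k x y ∧ HK α κ y := by
  classical
  by_cases hA : ∀ n : ℕ, D α n x
  · by_cases hB : ∀ n : ℕ, D α (-(n : ℤ)) x
    · by_cases hp : ∃ n : ℕ, 0 < n ∧ pw α n x = some x
      · refine ⟨.cyc (Nat.find hp), x, 0, P_refl α x, (Nat.find_spec hp).1, (Nat.find_spec hp).2,
          ?_⟩
        intro j hj hlt h
        exact Nat.find_min hp hlt ⟨hj, h⟩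
      · push Not at hp
        refine ⟨.dbl, x, 0, P_refl α x, ?_, ?_, hp⟩
        · intro n
          obtain ⟨y, hy⟩ := hA n
          exact ⟨y, (P_nat α n x y).1 hy⟩
        · intro n
          obtain ⟨y, hy⟩ := hB n
          exact ⟨y, (P_neg α n x y).1 hy⟩
    · push Not at hB
      -- first point
      have hB' : ∃ n : ℕ, ¬ D α (-(n : ℤ)) x := hB
      obtain ⟨n, hn⟩ : ∃ n, n = Nat.find hB' := ⟨_, rfl⟩
      have hn1 : ¬ D α (-(n : ℤ)) x := by rw [hn]; exact Nat.find_spec hB'
      have hn0 : n ≠ 0 := by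
        intro h
        apply hn1
        rw [h]
        simpa using D_zero α x
      have hn2 : D α (-((n - 1 : ℕ) : ℤ)) x := by
        by_contra h
        have := Nat.find_min' hB' h
        omega
      obtain ⟨y, hy⟩ := hn2
      refine ⟨.right, y, _, hy, ?_, ?_⟩
      · intro z hz
        apply hn1
        have := P_back α hy hz
        have e : -((n - 1 : ℕ) : ℤ) - 1 = -(n : ℤ) := by omega
        rw [e] at this
        exact ⟨z, this⟩
      · intro j
        have := (D_shift α hy (j : ℤ)).2 (by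
          rcases le_total 0 (-((n - 1 : ℕ) : ℤ) + j) with h | h
          · exact D_pos α h (show _ ≤ (j : ℤ) by omega) (hA j)
          · exact D_nonpos α h (show -((n - 1 : ℕ) : ℤ) ≤ _ by omega) ⟨y, hy⟩)
        obtain ⟨w, hw⟩ := this
        exact ⟨w, (P_nat α j y w).1 hw⟩
  · push Not at hA
    have hA' : ∃ n : ℕ, ¬ D α (n : ℤ) x := hA
    obtain ⟨n, hn⟩ : ∃ n, n = Nat.find hA' := ⟨_, rfl⟩
    have hn1 : ¬ D α (n : ℤ) x := by rw [hn]; exact Nat.find_spec hA'
    have hn0 : n ≠ 0 := by
      intro h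
      apply hn1
      rw [h]
      simpa using D_zero α x
    have hn2 : D α ((n - 1 : ℕ) : ℤ) x := by
      by_contra h
      have := Nat.find_min' hA' h
      omega
    obtain ⟨t, ht⟩ := hn2
    have htn : α t = none := by
      by_contra hne
      obtain ⟨w, hw⟩ := Option.ne_none_iff_exists'.1 hne
      apply hn1
      have := P_step α ht hw
      have e : ((n - 1 : ℕ) : ℤ) + 1 = (n : ℤ) := by omega
      rw [e] at this
      exact ⟨w, this⟩
    by_cases hB : ∀ n : ℕ, D α (-(n : ℤ)) x
    · refine ⟨.left, t, _, ht, htn, ?_⟩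
      intro j
      have := (D_shift α ht (-(j : ℤ))).2 (by
        rcases le_total 0 (((n - 1 : ℕ) : ℤ) + -j) with h | h
        · exact D_pos α h (show _ ≤ ((n - 1 : ℕ) : ℤ) by omega) ⟨t, ht⟩
        · exact D_nonpos α h (show -(j : ℤ) ≤ _ by omega) (hB j))
      obtain ⟨w, hw⟩ := this
      exact ⟨w, (P_neg α j t w).1 hw⟩
    · push Not at hB
      have hB' : ∃ n : ℕ, ¬ D α (-(n : ℤ)) x := hB
      obtain ⟨m, hm⟩ : ∃ m, m = Nat.find hB' := ⟨_, rfl⟩
      have hm1 : ¬ D α (-(m : ℤ)) x := by rw [hm]; exact Nat.find_spec hB'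
      have hm0 : m ≠ 0 := by
        intro h
        apply hm1
        rw [h]
        simpa using D_zero α x
      have hm2 : D α (-((m - 1 : ℕ) : ℤ)) x := by
        by_contra h
        have := Nat.find_min' hB' h
        omega
      obtain ⟨y, hy⟩ := hm2
      refine ⟨.chain (m + n - 1), y, _, hy, by omega, ?_, t, ?_, htn⟩
      · intro z hz
        apply hm1
        have := P_back α hy hz
        have e : -((m - 1 : ℕ) : ℤ) - 1 = -(m : ℤ) := by omega
        rw [e] at this
        exact ⟨z, this⟩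
      · have := P_add α (P_symm α hy) ht
        rw [← P_nat]
        have e : (((m + n - 1 - 1 : ℕ)) : ℤ) = - -((m - 1 : ℕ) : ℤ) + ((n - 1 : ℕ) : ℤ) := by omega
        rw [e]
        exact this

/-- the relation of kinds for partial conjugacy -/
def Rel2 : K → K → Prop
  | .cyc n, .cyc n' => n = n'
  | .dbl, .dbl => True
  | .right, .right => True
  | .left, .left => True
  | .chain m, .chain m' => m ≤ m' + 1 ∧ m' ≤ m + 1
  | _, _ => False

/-- the relation of kinds for c-conjugacy -/
def Rel1 : K → K → Prop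
  | .cyc n, .cyc n' => n = n'
  | .dbl, .dbl => True
  | .right, .right => True
  | .right, .dbl => True
  | .left, .left => True
  | .chain _, .left => True
  | .chain m, .chain m' => m ≤ m'
  | _, _ => False

theorem cyc_eq {n n' : ℕ} (h : ∀ k : ℤ, (n : ℤ) ∣ k ↔ (n' : ℤ) ∣ k) : n = n' := by
  have h1 := (h n).1 (dvd_refl _)
  have h2 := (h n').2 (dvd_refl _)
  exact Nat.dvd_antisymm (by exact_mod_cast h2) (by exact_mod_cast h1)

theorem shape_rel2 (κ κ' : K) (hv : Valid κ) (hv' : Valid κ') (c : ℤ)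
    (h1 : ∀ k, J κ k → J κ (k + 1) → J κ' (k + c))
    (h2 : ∀ k, J κ' (k + c) → J κ' (k + 1 + c) → J κ (k + 1))
    (hp : ∀ k, Per κ k ↔ Per κ' k) : Rel2 κ κ' := by
  obtain ⟨N, hN1, hN2, hN3, hN4, hN5⟩ :
      ∃ N : ℤ, c ≤ N ∧ -c ≤ N ∧ 1 ≤ N ∧ sz κ ≤ N ∧ sz κ' ≤ N := by
    refine ⟨|c| + 1 + |sz κ| + |sz κ'|, ?_, ?_, ?_, ?_, ?_⟩
    · have := le_abs_self c; have := abs_nonneg (sz κ); have := abs_nonneg (sz κ'); omega
    · have := neg_le_abs c; have := abs_nonneg (sz κ); have := abs_nonneg (sz κ'); omega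
    · have := abs_nonneg c; have := abs_nonneg (sz κ); have := abs_nonneg (sz κ'); omega
    · have := abs_nonneg c; have := le_abs_self (sz κ); have := abs_nonneg (sz κ'); omega
    · have := abs_nonneg c; have := abs_nonneg (sz κ); have := le_abs_self (sz κ'); omega
  have a1 := h1 (-1 - c)
  have a2 := h1 (1 - c)
  have a3 := h1 (3 * N)
  have a4 := h1 (-3 * N)
  have a5 := h1 0
  have a6 := h1 (sz κ - 2)
  have b1 := h2 (-2)
  have b2 := h2 0
  have b3 := h2 (3 * N)
  have b4 := h2 (-3 * N)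
  have b5 := h2 (-c)
  have b6 := h2 (sz κ' - c - 2)
  have a7 := h1 (N - c)
  rcases κ with n | _ | _ | _ | m <;> rcases κ' with n' | _ | _ | _ | m' <;>
    simp only [J, Valid, Rel2, sz, true_implies] at * <;> try omega
  · exact cyc_eq hp
  · have := hp n; simp only [Per, dvd_refl, true_iff] at this; omega
  · have := hp n'; simp only [Per, dvd_refl, iff_true] at this; omega

end Pool.Q24.PI
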