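import Pool.Agent.Q24.PI.Count

/-!
# c-conjugacy and p-conjugacy in symmetric inverse monoids: the main theorems
-/

namespace Pool.Q24.PI

universe u

open Cardinal

variable {X : Type u}

/-- The set `ℙ(α)`: if `α ≠ 0`, all `g` such that `(m α) g ≠ 0` for every `m α ≠ 0`; and
`ℙ(0) = {0}`.  (`⊥` is the empty map, `trans` is composition from left to right.) -/
def PP (α : X ≃. X) : Set (X ≃. X) :=
  {g | (α = ⊥ ∧ g = ⊥) ∨
    (α ≠ ⊥ ∧ ∀ m : X ≃. X, m.trans α ≠ ⊥ → (m.trans α).trans g ≠ ⊥)}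

/-- c-conjugacy in the symmetric inverse monoid. -/
def CConj (α β : X ≃. X) : Prop :=
  ∃ g h : X ≃. X, (g ∈ PP α ∨ g = PEquiv.refl X) ∧ (h ∈ PP β ∨ h = PEquiv.refl X) ∧
    α.trans g = g.trans β ∧ β.trans h = h.trans α

/-- p-conjugacy in the symmetric inverse monoid. -/
def PConj (α β : X ≃. X) : Prop :=
  ∃ u v : X ≃. X, α = u.trans v ∧ β = v.trans u

theorem eq_bot_iff (α : X ≃. X) : α = ⊥ ↔ ∀ x y, α x ≠ some y := by
  constructor
  · rintro rfl x y h
    simp at h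
  · intro h
    apply pequiv_ext
    intro x y
    constructor
    · intro h1; exact absurd h1 (h x y)
    · intro h1; simp at h1

theorem ne_bot_iff (α : X ≃. X) : α ≠ ⊥ ↔ ∃ x y, α x = some y := by
  rw [Ne, eq_bot_iff]
  push Not
  rfl

theorem dom_of_PP {α g : X ≃. X} (hα : α ≠ ⊥) (hg : g ∈ PP α ∨ g = PEquiv.refl X) :
    ∀ x y, α x = some y → ∃ z, g y = some z := by
  intro x y hxy
  rcases hg with (⟨h1, _⟩ | ⟨_, h1⟩) | h1
  · exact absurd h1 hα
  · classical
    have h2 : (PEquiv.single x x).trans α ≠ ⊥ := by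
      rw [ne_bot_iff]
      exact ⟨x, y, (trans_iff _ _ _ _).2 ⟨x, by simp, hxy⟩⟩
    obtain ⟨a, b, hab⟩ := (ne_bot_iff _).1 (h1 _ h2)
    obtain ⟨c, hc1, hc2⟩ := (trans_iff _ _ _ _).1 hab
    obtain ⟨d, hd1, hd2⟩ := (trans_iff _ _ _ _).1 hc1
    have : a = x ∧ d = x := (PEquiv.mem_single_iff a x d x).1 hd1
    rw [this.2] at hd2
    rw [func' α hxy hd2]
    exact ⟨b, hc2⟩
  · subst h1
    exact ⟨y, by simp⟩

theorem PP_of_dom {α g : X ≃. X} (hα : α ≠ ⊥) (hg : ∀ x y, α x = some y → ∃ z, g y = some z) :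
    g ∈ PP α := by
  refine Or.inr ⟨hα, ?_⟩
  intro m hm
  obtain ⟨a, b, hab⟩ := (ne_bot_iff _).1 hm
  obtain ⟨c, hc1, hc2⟩ := (trans_iff _ _ _ _).1 hab
  obtain ⟨z, hz⟩ := hg c b hc2
  rw [ne_bot_iff]
  exact ⟨a, z, (trans_iff _ _ _ _).2 ⟨b, hab, hz⟩⟩

theorem nt_of_ne_bot {α : X ≃. X} (h : α ≠ ⊥) : ∃ C : AC α, kd α C ≠ .chain 1 := by
  obtain ⟨x, y, hxy⟩ := (ne_bot_iff α).1 h
  exact ⟨mkC α x, kd_ne_of_arrow α hxy⟩

theorem kd_bot (C : AC (⊥ : X ≃. X)) : kd ⊥ C = .chain 1 := by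
  by_contra h
  obtain ⟨x, y, _, hxy⟩ := exists_arrow _ C h
  simp at hxy

/-- a map of components with values in the components of the zero map -/
theorem eq_bot_of_map {β : X ≃. X}
    (h : ∃ f : {C : AC β // kd β C ≠ .chain 1} → AC (⊥ : X ≃. X), Function.Injective f ∧
      ∀ C, Rel1 (kd β C.1) (kd ⊥ (f C))) : β = ⊥ := by
  by_contra hβ
  obtain ⟨C, hC⟩ := nt_of_ne_bot hβ
  obtain ⟨f, _, hf⟩ := h
  have h1 := hf ⟨C, hC⟩
  rw [kd_bot] at h1
  simp only at h1
  have hv := kd_valid β C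
  cases hk : kd β C with
  | chain m =>
    rw [hk] at h1 hC hv
    have h2 : m ≤ 1 := h1
    have h3 : 0 < m := hv
    have h4 : m = 1 := by omega
    subst h4
    exact hC rfl
  | _ => rw [hk] at h1; exact h1

/-- c-conjugacy in terms of maps of components -/
theorem cconj_iff_maps (α β : X ≃. X) : CConj α β ↔
    (∃ f : {C : AC α // kd α C ≠ .chain 1} → AC β, Function.Injective f ∧
      ∀ C, Rel1 (kd α C.1) (kd β (f C))) ∧
    (∃ f : {C : AC β // kd β C ≠ .chain 1} → AC α, Function.Injective f ∧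
      ∀ C, Rel1 (kd β C.1) (kd α (f C))) := by
  constructor
  · rintro ⟨g, h, hg, hh, h1, h2⟩
    have hdich : α = ⊥ ↔ β = ⊥ := by
      constructor
      · intro hα
        by_contra hβ
        obtain ⟨x, y, hxy⟩ := (ne_bot_iff β).1 hβ
        obtain ⟨z, hz⟩ := dom_of_PP hβ hh x y hxy
        have h3 := (trans_iff β h x z).2 ⟨y, hxy, hz⟩
        rw [h2, hα] at h3
        simp at h3
      · intro hβ
        by_contra hα
        obtain ⟨x, y, hxy⟩ := (ne_bot_iff α).1 hα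
        obtain ⟨z, hz⟩ := dom_of_PP hα hg x y hxy
        have h3 := (trans_iff α g x z).2 ⟨y, hxy, hz⟩
        rw [h1, hβ] at h3
        simp at h3
    by_cases hα : α = ⊥
    · have hβ := hdich.1 hα
      subst hα; subst hβ
      constructor
      · exact ⟨fun C => C.1, Subtype.val_injective, fun C => absurd (kd_bot C.1) C.2⟩
      · exact ⟨fun C => C.1, Subtype.val_injective, fun C => absurd (kd_bot C.1) C.2⟩
    · have hβ : β ≠ ⊥ := fun e => hα (hdich.2 e)
      exact ⟨comp_of_cconj (dom_of_PP hα hg) h1, comp_of_cconj (dom_of_PP hβ hh) h2⟩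
  · rintro ⟨h1, h2⟩
    by_cases hα : α = ⊥
    · subst hα
      have hβ : β = ⊥ := eq_bot_of_map h2
      subst hβ
      exact ⟨⊥, ⊥, Or.inl (Or.inl ⟨rfl, rfl⟩), Or.inl (Or.inl ⟨rfl, rfl⟩), rfl, rfl⟩
    · have hβ : β ≠ ⊥ := by
        rintro rfl
        exact hα (eq_bot_of_map h1)
      obtain ⟨f, hf, hfR⟩ := h1
      obtain ⟨f', hf', hfR'⟩ := h2
      obtain ⟨g, hg, hg'⟩ := cconj_of_comp f hf hfR
      obtain ⟨k, hk, hk'⟩ := cconj_of_comp f' hf' hfR'
      exact ⟨g, k, Or.inl (PP_of_dom hα hg), Or.inl (PP_of_dom hβ hk), hg', hk'⟩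

theorem Rel2_symm {κ κ' : K} (h : Rel2 κ κ') : Rel2 κ' κ := by
  cases κ <;> cases κ' <;> simp only [Rel2] at h ⊢
  · exact h.symm
  · exact ⟨h.2, h.1⟩

/-- p-conjugacy in terms of maps of components -/
theorem pconj_iff_maps (α β : X ≃. X) : PConj α β ↔
    (∃ f : {C : AC α // kd α C ≠ .chain 1} → AC β, Function.Injective f ∧
      ∀ C, Rel2 (kd α C.1) (kd β (f C))) ∧
    (∃ f : {C : AC β // kd β C ≠ .chain 1} → AC α, Function.Injective f ∧
      ∀ C, Rel2 (kd β C.1) (kd α (f C))) := by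
  constructor
  · rintro ⟨u, v, h1, h2⟩
    exact ⟨comp_of_pconj h1 h2, comp_of_pconj h2 h1⟩
  · rintro ⟨⟨f, hf, hfR⟩, ⟨g, hg, hgR⟩⟩
    obtain ⟨E, hE1, hE2, hE3, hE4, hE5⟩ := partial_sb {C : AC α | kd α C ≠ .chain 1}
      {D : AC β | kd β D ≠ .chain 1} (fun C D => Rel2 (kd α C) (kd β D)) f hf hfR g hg
      (fun D => Rel2_symm (hgR D))
    exact pconj_of_comp E hE1 hE2 hE3 hE4 hE5

theorem chains_congr {α β : X ≃. X} (h : ∀ a b, 2 ≤ a → a ≤ b →
      chainsBetween α a b ≤ chainsBetween β (a - 1) (b + 1)) :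
    ∀ a b, 2 ≤ a → a ≤ b → cnt α (fun κ => ∃ m, a ≤ m ∧ m ≤ b ∧ κ = .chain m) ≤
      cnt β (fun κ => ∃ m, a - 1 ≤ m ∧ m ≤ b + 1 ∧ κ = .chain m) := by
  intro a b h1 h2
  have := h a b h1 h2
  rwa [chainsBetween_eq, chainsBetween_eq] at this

/-- the description of p-conjugacy -/
theorem pconj_iff (α β : X ≃. X) : PConj α β ↔
    (∀ n, cycles α n = cycles β n) ∧ doubleRays α = doubleRays β ∧
    rightRays α = rightRays β ∧ leftRays α = leftRays β ∧
    (∀ a b, 2 ≤ a → a ≤ b →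
      chainsBetween α a b ≤ chainsBetween β (a - 1) (b + 1) ∧
      chainsBetween β a b ≤ chainsBetween α (a - 1) (b + 1)) := by
  rw [pconj_iff_maps]
  constructor
  · rintro ⟨⟨f, hf, hfR⟩, ⟨g, hg, hgR⟩⟩
    have hsimple : ∀ κ : K, (∀ m, κ ≠ .chain m) →
        cnt α (fun k => k = κ) = cnt β (fun k => k = κ) := by
      intro κ hκ
      have hR : ∀ κ', Rel2 κ κ' → κ' = κ := by
        intro κ' h
        cases κ <;> cases κ' <;> simp only [Rel2] at h <;> try rfl
        · rw [h]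
        · exact absurd rfl (hκ _)
      apply le_antisymm
      · refine cnt_le_of_map hf hfR _ _ ?_ ?_
        · rintro _ rfl h; exact hκ 1 h
        · rintro _ κ' rfl h; exact hR κ' h
      · refine cnt_le_of_map hg hgR _ _ ?_ ?_
        · rintro _ rfl h; exact hκ 1 h
        · rintro _ κ' rfl h; exact hR κ' h
    have hch : ∀ (a b : ℕ) (κ κ' : K), (∃ m, a ≤ m ∧ m ≤ b ∧ κ = .chain m) → Rel2 κ κ' →
        ∃ m, a - 1 ≤ m ∧ m ≤ b + 1 ∧ κ' = .chain m := by
      rintro a b _ κ' ⟨m, h1, h2, rfl⟩ h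
      cases κ' with
      | chain m' =>
        have h3 : m ≤ m' + 1 ∧ m' ≤ m + 1 := h
        exact ⟨m', by omega, by omega, rfl⟩
      | _ => exact absurd h (by simp [Rel2])
    have hne : ∀ (a b : ℕ), 2 ≤ a → ∀ κ : K, (∃ m, a ≤ m ∧ m ≤ b ∧ κ = .chain m) →
        κ ≠ .chain 1 := by
      rintro a b ha _ ⟨m, h1, _, rfl⟩ h
      simp only [K.chain.injEq] at h
      omega
    refine ⟨?_, ?_, ?_, ?_, ?_⟩
    · intro n
      rw [cycles_eq, cycles_eq]
      exact hsimple (.cyc n) (by simp)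
    · rw [doubleRays_eq, doubleRays_eq]
      exact hsimple .dbl (by simp)
    · rw [rightRays_eq, rightRays_eq]
      exact hsimple .right (by simp)
    · rw [leftRays_eq, leftRays_eq]
      exact hsimple .left (by simp)
    · intro a b ha hab
      rw [chainsBetween_eq, chainsBetween_eq, chainsBetween_eq, chainsBetween_eq]
      exact ⟨cnt_le_of_map hf hfR _ _ (hne a b ha) (fun κ κ' => hch a b κ κ'),
        cnt_le_of_map hg hgR _ _ (hne a b ha) (fun κ κ' => hch a b κ κ')⟩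
  · rintro ⟨h1, h2, h3, h4, h5⟩
    simp only [cycles_eq] at h1
    rw [doubleRays_eq, doubleRays_eq] at h2
    rw [rightRays_eq, rightRays_eq] at h3
    rw [leftRays_eq, leftRays_eq] at h4
    refine ⟨exists_map2 (fun n => (h1 n).le) h2.le h3.le h4.le
      (chains_congr (fun a b ha hab => (h5 a b ha hab).1)),
      exists_map2 (fun n => (h1 n).ge) h2.ge h3.ge h4.ge
      (chains_congr (fun a b ha hab => (h5 a b ha hab).2))⟩

/-- the description of c-conjugacy -/
theorem cconj_iff (α β : X ≃. X) : CConj α β ↔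
    (∀ n, cycles α n = cycles β n) ∧ doubleRays α = doubleRays β ∧
    doubleRays α + rightRays α = doubleRays β + rightRays β ∧ leftRays α = leftRays β ∧
    (∀ k, 2 ≤ k → leftRays α + chainsFrom α k = leftRays β + chainsFrom β k) := by
  have hdr : ∀ γ : X ≃. X, doubleRays γ + rightRays γ =
      cnt γ (fun k => k = .dbl ∨ k = .right) := by
    intro γ
    rw [doubleRays_eq, rightRays_eq, cnt_add]
    rintro _ rfl; simp
  have hlc : ∀ (γ : X ≃. X) (k : ℕ), leftRays γ + chainsFrom γ k =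
      cnt γ (fun κ => κ = .left ∨ ∃ m, k ≤ m ∧ κ = .chain m) := by
    intro γ k
    rw [leftRays_eq, chainsFrom_eq, cnt_add]
    rintro _ rfl; simp
  rw [cconj_iff_maps]
  constructor
  · rintro ⟨⟨f, hf, hfR⟩, ⟨g, hg, hgR⟩⟩
    refine ⟨?_, ?_, ?_, ?_, ?_⟩
    · intro n
      rw [cycles_eq, cycles_eq]
      have hR : ∀ κ κ' : K, κ = .cyc n → Rel1 κ κ' → κ' = .cyc n := by
        rintro _ κ' rfl h
        cases κ' <;> simp only [Rel1] at h
        rw [h]
      exact le_antisymm (cnt_le_of_map hf hfR _ _ (by rintro _ rfl; simp) hR)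
        (cnt_le_of_map hg hgR _ _ (by rintro _ rfl; simp) hR)
    · rw [doubleRays_eq, doubleRays_eq]
      have hR : ∀ κ κ' : K, κ = .dbl → Rel1 κ κ' → κ' = .dbl := by
        rintro _ κ' rfl h
        cases κ' <;> simp only [Rel1] at h
        rfl
      exact le_antisymm (cnt_le_of_map hf hfR _ _ (by rintro _ rfl; simp) hR)
        (cnt_le_of_map hg hgR _ _ (by rintro _ rfl; simp) hR)
    · rw [hdr, hdr]
      have hR : ∀ κ κ' : K, (κ = .dbl ∨ κ = .right) → Rel1 κ κ' → (κ' = .dbl ∨ κ' = .right) := by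
        rintro _ κ' (rfl | rfl) h
        · cases κ' <;> simp only [Rel1] at h
          exact Or.inl rfl
        · cases κ' <;> simp only [Rel1] at h
          · exact Or.inl rfl
          · exact Or.inr rfl
      exact le_antisymm (cnt_le_of_map hf hfR _ _ (by rintro _ (rfl | rfl) <;> simp) hR)
        (cnt_le_of_map hg hgR _ _ (by rintro _ (rfl | rfl) <;> simp) hR)
    · rw [leftRays_eq, leftRays_eq]
      have hR : ∀ κ κ' : K, κ = .left → Rel1 κ κ' → κ' = .left := by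
        rintro _ κ' rfl h
        cases κ' <;> simp only [Rel1] at h
        rfl
      exact le_antisymm (cnt_le_of_map hf hfR _ _ (by rintro _ rfl; simp) hR)
        (cnt_le_of_map hg hgR _ _ (by rintro _ rfl; simp) hR)
    · intro k hk
      rw [hlc, hlc]
      have hR : ∀ κ κ' : K, (κ = .left ∨ ∃ m, k ≤ m ∧ κ = .chain m) → Rel1 κ κ' →
          (κ' = .left ∨ ∃ m, k ≤ m ∧ κ' = .chain m) := by
        rintro _ κ' (rfl | ⟨m, hm, rfl⟩) h
        · cases κ' <;> simp only [Rel1] at h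
          exact Or.inl rfl
        · cases κ' <;> simp only [Rel1] at h
          · exact Or.inl rfl
          · exact Or.inr ⟨_, hm.trans h, rfl⟩
      have hne : ∀ κ : K, (κ = .left ∨ ∃ m, k ≤ m ∧ κ = .chain m) → κ ≠ .chain 1 := by
        rintro _ (rfl | ⟨m, hm, rfl⟩)
        · simp
        · simp only [ne_eq, K.chain.injEq]
          omega
      exact le_antisymm (cnt_le_of_map hf hfR _ _ hne hR) (cnt_le_of_map hg hgR _ _ hne hR)
  · rintro ⟨h1, h2, h3, h4, h5⟩
    simp only [cycles_eq] at h1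
    rw [hdr, hdr] at h3
    rw [doubleRays_eq, doubleRays_eq] at h2
    have h5' : ∀ k, 2 ≤ k → cnt α (fun κ => κ = .left ∨ ∃ m, k ≤ m ∧ κ = .chain m) =
        cnt β (fun κ => κ = .left ∨ ∃ m, k ≤ m ∧ κ = .chain m) := by
      intro k hk
      rw [← hlc, ← hlc]
      exact h5 k hk
    rw [leftRays_eq, leftRays_eq] at h4
    exact ⟨exists_map1 (fun n => (h1 n).le) h2.le h3.le h4.le (fun k hk => (h5' k hk).le),
      exists_map1 (fun n => (h1 n).ge) h2.ge h3.ge h4.ge (fun k hk => (h5' k hk).ge)⟩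

end Pool.Q24.PI
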