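import Pool.Agent.Q24.PI.Shape

/-!
# From maps of points to maps of components and back
-/

namespace Pool.Q24.PI

universe u

variable {X : Type u}

/-- a partial injective map from a relation -/
noncomputable def ofRel (R : X → X → Prop) (hf : ∀ x y y', R x y → R x y' → y = y')
    (hi : ∀ x x' y, R x y → R x' y → x = x') : X ≃. X := by
  classical
  exact
  { toFun := fun x => if h : ∃ y, R x y then some h.choose else none
    invFun := fun y => if h : ∃ x, R x y then some h.choose else none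
    inv := by
      intro a b
      constructor
      · intro h
        by_cases hb : ∃ x, R x b
        · simp only [hb, ↓reduceDIte, Option.mem_def, Option.some.injEq] at h
          have h1 : R a b := by rw [← h]; exact hb.choose_spec
          have ha : ∃ y, R a y := ⟨b, h1⟩
          simp only [ha, ↓reduceDIte, Option.mem_def, Option.some.injEq]
          exact hf _ _ _ ha.choose_spec h1
        · simp [hb] at h
      · intro h
        by_cases ha : ∃ y, R a y
        · simp only [ha, ↓reduceDIte, Option.mem_def, Option.some.injEq] at h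
          have h1 : R a b := by rw [← h]; exact ha.choose_spec
          have hb : ∃ x, R x b := ⟨a, h1⟩
          simp only [hb, ↓reduceDIte, Option.mem_def, Option.some.injEq]
          exact hi _ _ _ hb.choose_spec h1
        · simp [ha] at h }

theorem ofRel_iff (R : X → X → Prop) (hf : ∀ x y y', R x y → R x y' → y = y')
    (hi : ∀ x x' y, R x y → R x' y → x = x') (x y : X) : ofRel R hf hi x = some y ↔ R x y := by
  classical
  change (if h : ∃ y, R x y then some h.choose else none) = some y ↔ R x y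
  by_cases h : ∃ y, R x y
  · simp only [h, ↓reduceDIte, Option.some.injEq]
    constructor
    · intro e; rw [← e]; exact h.choose_spec
    · intro e; exact hf _ _ _ h.choose_spec e
  · simp only [h, ↓reduceDIte, reduceCtorEq, false_iff]
    intro h1; exact h ⟨y, h1⟩

/-- matched pairs of points -/
def IsMat (α β : X ≃. X) (M : Set (X × X)) : Prop :=
  (∀ p ∈ M, ∀ q ∈ M, ∀ k, P α k p.1 q.1 → p = q) ∧
    (∀ p ∈ M, ∀ q ∈ M, ∀ k, P β k p.2 q.2 → p = q) ∧
      ∀ p ∈ M, ∀ k, P α k p.1 p.1 ↔ P β k p.2 p.2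

/-- the relation attached to matched pairs -/
def UR (α β : X ≃. X) (M : Set (X × X)) (d : ℤ) (x y : X) : Prop :=
  ∃ p ∈ M, ∃ k : ℤ, P α (k + d) p.1 x ∧ P β k p.2 y

theorem UR_align {α β : X ≃. X} {M : Set (X × X)} (hM : IsMat α β M) {d : ℤ} {x y : X}
    (h : UR α β M d x y) {p : X × X} (hp : p ∈ M) {k : ℤ} (hk : P α (k + d) p.1 x) :
    P β k p.2 y := by
  obtain ⟨q, hq, l, h1, h2⟩ := h
  have h3 := P_add α hk (P_symm α h1)
  have e : p = q := hM.1 p hp q hq _ h3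
  subst e
  rw [hM.2.2 p hp] at h3
  have h4 := P_add β h3 h2
  have e : k + d + -(l + d) + l = k := by ring
  rwa [e] at h4

theorem UR_align' {α β : X ≃. X} {M : Set (X × X)} (hM : IsMat α β M) {d : ℤ} {x y : X}
    (h : UR α β M d x y) {p : X × X} (hp : p ∈ M) {k : ℤ} (hk : P β k p.2 y) :
    P α (k + d) p.1 x := by
  obtain ⟨q, hq, l, h1, h2⟩ := h
  have h3 := P_add β hk (P_symm β h2)
  have e : p = q := hM.2.1 p hp q hq _ h3
  subst e
  rw [← hM.2.2 p hp] at h3
  have h4 := P_add α h3 h1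
  have e : k + -l + (l + d) = k + d := by ring
  rwa [e] at h4

/-- the partial injective map attached to matched pairs -/
noncomputable def U (α β : X ≃. X) (M : Set (X × X)) (hM : IsMat α β M) (d : ℤ) : X ≃. X :=
  ofRel (UR α β M d)
    (by
      rintro x y y' ⟨p, hp, k, h1, h2⟩ h'
      exact P_func β h2 (UR_align hM h' hp h1))
    (by
      rintro x x' y ⟨p, hp, k, h1, h2⟩ h'
      exact P_func α h1 (UR_align' hM h' hp h2))

theorem U_iff {α β : X ≃. X} {M : Set (X × X)} (hM : IsMat α β M) (d : ℤ) (x y : X) :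
    U α β M hM d x = some y ↔ UR α β M d x y := ofRel_iff _ _ _ x y

theorem trans_iff (α β : X ≃. X) (x y : X) :
    (α.trans β) x = some y ↔ ∃ z, α x = some z ∧ β z = some y := PEquiv.trans_eq_some _ _ _ _

theorem pequiv_ext {α β : X ≃. X} (h : ∀ x y, α x = some y ↔ β x = some y) : α = β := by
  apply PEquiv.ext
  intro x
  apply Option.ext
  intro y
  exact h x y

/-- sufficient condition for partial conjugacy, at the level of points -/
theorem pconj_of_mat {α β : X ≃. X} {M : Set (X × X)} (hM : IsMat α β M)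
    (h1 : ∀ p ∈ M, ∀ k, D α k p.1 → D α (k + 1) p.1 → D β k p.2)
    (h2 : ∀ p ∈ M, ∀ k, D β k p.2 → D β (k + 1) p.2 → D α (k + 1) p.1)
    (hα : ∀ x y, α x = some y → ∃ p ∈ M, ∃ k, P α k p.1 x)
    (hβ : ∀ x y, β x = some y → ∃ p ∈ M, ∃ k, P β k p.2 x) :
    ∃ u v : X ≃. X, α = u.trans v ∧ β = v.trans u := by
  refine ⟨U α β M hM 0, (U α β M hM 1).symm, pequiv_ext ?_, pequiv_ext ?_⟩
  · intro x x'
    rw [trans_iff]
    constructor
    · intro hx
      obtain ⟨p, hp, k, hk⟩ := hα x x' hx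
      have hk' := P_step α hk hx
      obtain ⟨y, hy⟩ := h1 p hp k ⟨x, hk⟩ ⟨x', hk'⟩
      refine ⟨y, (U_iff hM 0 x y).2 ⟨p, hp, k, by simpa using hk, hy⟩, ?_⟩
      rw [PEquiv.eq_some_iff, U_iff]
      exact ⟨p, hp, k, hk', hy⟩
    · rintro ⟨y, h3, h4⟩
      rw [PEquiv.eq_some_iff, U_iff] at h4
      rw [U_iff] at h3
      obtain ⟨p, hp, k, h5, h6⟩ := h3
      have h7 := UR_align' hM h4 hp h6
      rw [add_zero] at h5
      have h8 := P_add α (P_symm α h5) h7
      have e : -k + (k + 1) = 1 := by ring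
      rw [e, P_one] at h8
      exact h8
  · intro y y'
    rw [trans_iff]
    constructor
    · intro hy
      obtain ⟨p, hp, k, hk⟩ := hβ y y' hy
      have hk' := P_step β hk hy
      obtain ⟨x, hx⟩ := h2 p hp k ⟨y, hk⟩ ⟨y', hk'⟩
      refine ⟨x, ?_, (U_iff hM 0 x y').2 ⟨p, hp, k + 1, by simpa using hx, hk'⟩⟩
      rw [PEquiv.eq_some_iff, U_iff]
      exact ⟨p, hp, k, hx, hk⟩
    · rintro ⟨x, h3, h4⟩
      rw [PEquiv.eq_some_iff, U_iff] at h3
      rw [U_iff] at h4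
      obtain ⟨p, hp, k, h5, h6⟩ := h3
      have h7 := UR_align hM h4 hp (k := k + 1) (by simpa using h5)
      have h8 := P_add β (P_symm β h6) h7
      have e : -k + (k + 1) = 1 := by ring
      rw [e, P_one] at h8
      exact h8

/-- sufficient condition for c-conjugacy, at the level of points -/
theorem cconj_of_mat {α β : X ≃. X} {M : Set (X × X)} (hM : IsMat α β M)
    (h1 : ∀ p ∈ M, ∀ k, D α k p.1 → D β k p.2)
    (h2 : ∀ p ∈ M, ∀ k, D α k p.1 → ¬ D α (k + 1) p.1 → ¬ D β (k + 1) p.2)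
    (hα : ∀ x y, α x = some y → ∃ p ∈ M, ∃ k, P α k p.1 x) :
    ∃ g : X ≃. X, (∀ x y, α x = some y → ∃ z, g y = some z) ∧ α.trans g = g.trans β := by
  refine ⟨U α β M hM 0, ?_, pequiv_ext ?_⟩
  · intro x y hxy
    obtain ⟨p, hp, k, hk⟩ := hα x y hxy
    have hk' := P_step α hk hxy
    obtain ⟨z, hz⟩ := h1 p hp (k + 1) ⟨y, hk'⟩
    exact ⟨z, (U_iff hM 0 y z).2 ⟨p, hp, k + 1, by simpa using hk', hz⟩⟩
  · intro x y'
    rw [trans_iff, trans_iff]
    constructor
    · rintro ⟨x', hx, hg⟩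
      obtain ⟨p, hp, k, hk⟩ := hα x x' hx
      have hk' := P_step α hk hx
      obtain ⟨y, hy⟩ := h1 p hp k ⟨x, hk⟩
      refine ⟨y, (U_iff hM 0 x y).2 ⟨p, hp, k, by simpa using hk, hy⟩, ?_⟩
      have h3 := UR_align hM ((U_iff hM 0 x' y').1 hg) hp (k := k + 1) (by simpa using hk')
      have h8 := P_add β (P_symm β hy) h3
      have e : -k + (k + 1) = 1 := by ring
      rw [e, P_one] at h8
      exact h8
    · rintro ⟨y, hg, hy⟩
      obtain ⟨p, hp, k, hk, hk2⟩ := (U_iff hM 0 x y).1 hg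
      rw [add_zero] at hk
      have hk2' := P_step β hk2 hy
      have hD : D α (k + 1) p.1 := by
        by_contra hD
        exact h2 p hp k ⟨x, hk⟩ hD ⟨y', hk2'⟩
      obtain ⟨x', hx'⟩ := hD
      refine ⟨x', ?_, (U_iff hM 0 x' y').2 ⟨p, hp, k + 1, by simpa using hx', hk2'⟩⟩
      have h8 := P_add α (P_symm α hk) hx'
      have e : -k + (k + 1) = 1 := by ring
      rw [e, P_one] at h8
      exact h8

/-- a shifted base point -/
theorem shifted (β : X ≃. X) {κ : K} {y : X} (h : HK β κ y) {c : ℤ} (hc : J κ c) :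
    ∃ s, mkC β s = mkC β y ∧ (∀ k, D β k s ↔ J κ (k + c)) ∧ ∀ k, P β k s s ↔ Per κ k := by
  obtain ⟨s, hs⟩ := (hk_D β κ y h c).2 hc
  refine ⟨s, ((mkC_eq_iff β y s).2 ⟨c, hs⟩).symm, ?_, ?_⟩
  · intro k
    rw [D_shift β hs, hk_D β κ y h, add_comm]
  · intro k
    rw [← hk_P β κ y h]
    constructor
    · intro h1
      have := P_add β (P_add β hs h1) (P_symm β hs)
      have e : c + k + -c = k := by ring
      rwa [e] at this
    · intro h1
      have := P_add β (P_add β (P_symm β hs) h1) hs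
      have e : -c + k + c = k := by ring
      rwa [e] at this

/-- partial conjugacy from a matching of components -/
theorem pconj_of_comp {α β : X ≃. X} (E : Set (AC α × AC β))
    (hE1 : ∀ p ∈ E, ∀ q ∈ E, p.1 = q.1 → p = q)
    (hE2 : ∀ p ∈ E, ∀ q ∈ E, p.2 = q.2 → p = q)
    (hR : ∀ p ∈ E, Rel2 (kd α p.1) (kd β p.2))
    (hα : ∀ C, kd α C ≠ .chain 1 → ∃ p ∈ E, p.1 = C)
    (hβ : ∀ C, kd β C ≠ .chain 1 → ∃ p ∈ E, p.2 = C) :
    ∃ u v : X ≃. X, α = u.trans v ∧ β = v.trans u := by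
  have key : ∀ p : E, ∃ s, mkC β s = p.1.2 ∧
      (∀ k, D α k (bp α p.1.1) → D α (k + 1) (bp α p.1.1) → D β k s) ∧
      (∀ k, D β k s → D β (k + 1) s → D α (k + 1) (bp α p.1.1)) ∧
      (∀ k, P α k (bp α p.1.1) (bp α p.1.1) ↔ P β k s s) := by
    intro p
    obtain ⟨c, h1, h2, h3, h4⟩ := rel2_shape _ _ (kd_valid α p.1.1) (kd_valid β p.1.2)
      (hR p.1 p.2)
    obtain ⟨s, hs1, hs2, hs3⟩ := shifted β (bp_kind β p.1.2) h1
    have hD := hk_D α _ _ (bp_kind α p.1.1)
    have hP := hk_P α _ _ (bp_kind α p.1.1)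
    refine ⟨s, by rw [hs1, mkC_bp], ?_, ?_, ?_⟩
    · intro k
      rw [hD, hD, hs2]
      exact h2 k
    · intro k
      rw [hD, hs2, hs2]
      exact h3 k
    · intro k
      rw [hP, hs3]
      exact h4 k
  choose s hs1 hs2 hs3 hs4 using key
  have hM : IsMat α β (Set.range (fun p : E => (bp α p.1.1, s p))) := by
    refine ⟨?_, ?_, ?_⟩
    · rintro _ ⟨p, rfl⟩ _ ⟨q, rfl⟩ k hk
      have h1 : mkC α (bp α p.1.1) = mkC α (bp α q.1.1) := (mkC_eq_iff α _ _).2 ⟨k, hk⟩
      rw [mkC_bp, mkC_bp] at h1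
      have : p = q := Subtype.ext (hE1 p.1 p.2 q.1 q.2 h1)
      rw [this]
    · rintro _ ⟨p, rfl⟩ _ ⟨q, rfl⟩ k hk
      have h1 : mkC β (s p) = mkC β (s q) := (mkC_eq_iff β _ _).2 ⟨k, hk⟩
      rw [hs1, hs1] at h1
      have : p = q := Subtype.ext (hE2 p.1 p.2 q.1 q.2 h1)
      rw [this]
    · rintro _ ⟨p, rfl⟩ k
      exact hs4 p k
  refine pconj_of_mat hM ?_ ?_ ?_ ?_
  · rintro _ ⟨p, rfl⟩ k
    exact hs2 p k
  · rintro _ ⟨p, rfl⟩ k
    exact hs3 p k
  · intro x y hxy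
    obtain ⟨p, hp, hpe⟩ := hα (mkC α x) (kd_ne_of_arrow α hxy)
    refine ⟨_, ⟨⟨p, hp⟩, rfl⟩, ?_⟩
    obtain ⟨k, hk⟩ := bp_P α x
    refine ⟨k, ?_⟩
    show P α k (bp α p.1) x
    rw [hpe]; exact hk
  · intro x y hxy
    obtain ⟨p, hp, hpe⟩ := hβ (mkC β x) (kd_ne_of_arrow β hxy)
    refine ⟨_, ⟨⟨p, hp⟩, rfl⟩, ?_⟩
    refine (mkC_eq_iff β _ _).1 ?_
    rw [hs1]
    exact hpe

/-- the half of c-conjugacy from a map of components -/
theorem cconj_of_comp {α β : X ≃. X} (f : {C : AC α // kd α C ≠ .chain 1} → AC β)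
    (hf : Function.Injective f)
    (hR : ∀ C, Rel1 (kd α C.1) (kd β (f C))) :
    ∃ g : X ≃. X, (∀ x y, α x = some y → ∃ z, g y = some z) ∧ α.trans g = g.trans β := by
  have key : ∀ C : {C : AC α // kd α C ≠ .chain 1}, ∃ s, mkC β s = f C ∧
      (∀ k, D α k (bp α C.1) → D β k s) ∧
      (∀ k, D α k (bp α C.1) → ¬ D α (k + 1) (bp α C.1) → ¬ D β (k + 1) s) ∧
      (∀ k, P α k (bp α C.1) (bp α C.1) ↔ P β k s s) := by
    intro C
    obtain ⟨c, h1, h2, h3, h4⟩ := rel1_shape _ _ (kd_valid α C.1) (kd_valid β (f C)) (hR C)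
    obtain ⟨s, hs1, hs2, hs3⟩ := shifted β (bp_kind β (f C)) h1
    have hD := hk_D α _ _ (bp_kind α C.1)
    have hP := hk_P α _ _ (bp_kind α C.1)
    refine ⟨s, by rw [hs1, mkC_bp], ?_, ?_, ?_⟩
    · intro k
      rw [hD, hs2]
      exact h2 k
    · intro k
      rw [hD, hD, hs2]
      exact h3 k
    · intro k
      rw [hP, hs3]
      exact h4 k
  choose s hs1 hs2 hs3 hs4 using key
  have hM : IsMat α β (Set.range (fun C : {C : AC α // kd α C ≠ .chain 1} =>
      (bp α C.1, s C))) := by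
    refine ⟨?_, ?_, ?_⟩
    · rintro _ ⟨p, rfl⟩ _ ⟨q, rfl⟩ k hk
      have h1 : mkC α (bp α p.1) = mkC α (bp α q.1) := (mkC_eq_iff α _ _).2 ⟨k, hk⟩
      rw [mkC_bp, mkC_bp] at h1
      have : p = q := Subtype.ext h1
      rw [this]
    · rintro _ ⟨p, rfl⟩ _ ⟨q, rfl⟩ k hk
      have h1 : mkC β (s p) = mkC β (s q) := (mkC_eq_iff β _ _).2 ⟨k, hk⟩
      rw [hs1, hs1] at h1
      have : p = q := hf h1
      rw [this]
    · rintro _ ⟨p, rfl⟩ k
      exact hs4 p k
  refine cconj_of_mat hM ?_ ?_ ?_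
  · rintro _ ⟨p, rfl⟩ k
    exact hs2 p k
  · rintro _ ⟨p, rfl⟩ k
    exact hs3 p k
  · intro x y hxy
    refine ⟨_, ⟨⟨mkC α x, kd_ne_of_arrow α hxy⟩, rfl⟩, ?_⟩
    exact bp_P α x

end Pool.Q24.PI
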