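import Pool.Agent.Q24.PI.Maps

/-!
# Necessity: conjugacy gives maps of components
-/

namespace Pool.Q24.PI

universe u

variable {X : Type u}

/-- the relation of kinds from shapes of arbitrary points -/
theorem rel2_of_points {α β : X ≃. X} {x y : X}
    (h1 : ∀ k, D α k x → D α (k + 1) x → D β k y)
    (h2 : ∀ k, D β k y → D β (k + 1) y → D α (k + 1) x)
    (hp : ∀ k, P α k x x ↔ P β k y y) : Rel2 (kd α (mkC α x)) (kd β (mkC β y)) := by
  obtain ⟨k0, hk0⟩ := bp_P α x
  obtain ⟨l0, hl0⟩ := bp_P β y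
  have hD := hk_D α _ _ (bp_kind α (mkC α x))
  have hD' := hk_D β _ _ (bp_kind β (mkC β y))
  have hP := hk_P α _ _ (bp_kind α (mkC α x))
  have hP' := hk_P β _ _ (bp_kind β (mkC β y))
  refine shape_rel2 _ _ (kd_valid α _) (kd_valid β _) (l0 - k0) ?_ ?_ ?_
  · intro k
    rw [← hD, ← hD, ← hD']
    intro a1 a2
    have := h1 (k - k0) ((D_shift α hk0 _).2 (by rwa [add_sub_cancel]))
      ((D_shift α hk0 _).2 (by
        have e : k0 + (k - k0 + 1) = k + 1 := by ring
        rwa [e]))
    have h3 := (D_shift β hl0 _).1 this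
    have e : l0 + (k - k0) = k + (l0 - k0) := by ring
    rwa [e] at h3
  · intro k
    rw [← hD, ← hD', ← hD']
    intro a1 a2
    have := h2 (k - k0) ((D_shift β hl0 _).2 (by
        have e : l0 + (k - k0) = k + (l0 - k0) := by ring
        rwa [e]))
      ((D_shift β hl0 _).2 (by
        have e : l0 + (k - k0 + 1) = k + 1 + (l0 - k0) := by ring
        rwa [e]))
    have h3 := (D_shift α hk0 _).1 this
    have e : k0 + (k - k0 + 1) = k + 1 := by ring
    rwa [e] at h3
  · intro k
    rw [← hP, ← hP']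
    constructor
    · intro h
      have h3 := P_add α (P_add α (P_symm α hk0) h) hk0
      have e : -k0 + k + k0 = k := by ring
      rw [e, hp] at h3
      have h4 := P_add β (P_add β hl0 h3) (P_symm β hl0)
      have e : l0 + k + -l0 = k := by ring
      rwa [e] at h4
    · intro h
      have h3 := P_add β (P_add β (P_symm β hl0) h) hl0
      have e : -l0 + k + l0 = k := by ring
      rw [e, ← hp] at h3
      have h4 := P_add α (P_add α hk0 h3) (P_symm α hk0)
      have e : k0 + k + -k0 = k := by ring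
      rwa [e] at h4

theorem rel1_of_points {α β : X ≃. X} {x y : X}
    (h1 : ∀ k, D α k x → D β k y)
    (h2 : ∀ k, D α k x → ¬ D α (k + 1) x → ¬ D β (k + 1) y)
    (hp : ∀ k, P α k x x ↔ P β k y y) : Rel1 (kd α (mkC α x)) (kd β (mkC β y)) := by
  obtain ⟨k0, hk0⟩ := bp_P α x
  obtain ⟨l0, hl0⟩ := bp_P β y
  have hD := hk_D α _ _ (bp_kind α (mkC α x))
  have hD' := hk_D β _ _ (bp_kind β (mkC β y))
  have hP := hk_P α _ _ (bp_kind α (mkC α x))
  have hP' := hk_P β _ _ (bp_kind β (mkC β y))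
  refine shape_rel1 _ _ (kd_valid α _) (kd_valid β _) (l0 - k0) ?_ ?_ ?_
  · intro k
    rw [← hD, ← hD']
    intro a1
    have := h1 (k - k0) ((D_shift α hk0 _).2 (by rwa [add_sub_cancel]))
    have h3 := (D_shift β hl0 _).1 this
    have e : l0 + (k - k0) = k + (l0 - k0) := by ring
    rwa [e] at h3
  · intro k
    rw [← hD, ← hD, ← hD']
    intro a1 a2 a3
    refine h2 (k - k0) ((D_shift α hk0 _).2 (by rwa [add_sub_cancel])) ?_
      ((D_shift β hl0 _).2 (by
        have e : l0 + (k - k0 + 1) = k + 1 + (l0 - k0) := by ring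
        rwa [e]))
    intro h
    apply a2
    have h3 := (D_shift α hk0 _).1 h
    have e : k0 + (k - k0 + 1) = k + 1 := by ring
    rwa [e] at h3
  · intro k
    rw [← hP, ← hP']
    constructor
    · intro h
      have h3 := P_add α (P_add α (P_symm α hk0) h) hk0
      have e : -k0 + k + k0 = k := by ring
      rw [e, hp] at h3
      have h4 := P_add β (P_add β hl0 h3) (P_symm β hl0)
      have e : l0 + k + -l0 = k := by ring
      rwa [e] at h4
    · intro h
      have h3 := P_add β (P_add β (P_symm β hl0) h) hl0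
      have e : -l0 + k + l0 = k := by ring
      rw [e, ← hp] at h3
      have h4 := P_add α (P_add α hk0 h3) (P_symm α hk0)
      have e : k0 + k + -k0 = k := by ring
      rwa [e] at h4

/-- from nonnegative steps to all steps -/
theorem all_steps {α β w : X ≃. X}
    (h : ∀ (n : ℕ) (a b a' b' : X), pw α n a = some b → w a = some a' → w b = some b' →
      pw β n a' = some b') {k : ℤ} {a b a' b' : X} (hk : P α k a b) (ha : w a = some a')
    (hb : w b = some b') : P β k a' b' := by
  obtain ⟨n, rfl | rfl⟩ := Int.eq_nat_or_neg k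
  · rw [P_nat] at hk ⊢
    exact h n a b a' b' hk ha hb
  · rw [P_neg] at hk ⊢
    exact h n b a b' a' hk hb ha

theorem all_steps' {α β w : X ≃. X}
    (h : ∀ (n : ℕ) (a a' b' : X), pw β n a' = some b' → w a = some a' →
      ∃ b, pw α n a = some b ∧ w b = some b') {k : ℤ} {a b a' b' : X} (hk : P β k a' b')
    (ha : w a = some a') (hb : w b = some b') : P α k a b := by
  obtain ⟨n, rfl | rfl⟩ := Int.eq_nat_or_neg k
  · rw [P_nat] at hk ⊢
    obtain ⟨c, h1, h2⟩ := h n a a' b' hk ha
    rw [inj' w hb h2]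
    exact h1
  · rw [P_neg] at hk ⊢
    obtain ⟨c, h1, h2⟩ := h n b b' a' hk hb
    rw [inj' w ha h2]
    exact h1

/-- partial conjugacy gives a map of components -/
theorem comp_of_pconj {α β u v : X ≃. X} (hα : α = u.trans v) (hβ : β = v.trans u) :
    ∃ f : {C : AC α // kd α C ≠ .chain 1} → AC β, Function.Injective f ∧
      ∀ C, Rel2 (kd α C.1) (kd β (f C)) := by
  have hα' : ∀ x y, α x = some y ↔ ∃ z, u x = some z ∧ v z = some y := by
    intro x y; rw [hα]; exact trans_iff u v x y
  have hβ' : ∀ x y, β x = some y ↔ ∃ z, v x = some z ∧ u z = some y := by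
    intro x y; rw [hβ]; exact trans_iff v u x y
  have T1 : ∀ (n : ℕ) (a b a' b' : X), pw α n a = some b → u a = some a' → u b = some b' →
      pw β n a' = some b' := by
    intro n
    induction n with
    | zero =>
      intro a b a' b' h ha hb
      rw [pw_zero] at h ⊢
      subst h
      exact func' u ha hb
    | succ n ih =>
      intro a b a' b' h ha hb
      obtain ⟨c, h1, h2⟩ := (pw_succ α n a b).1 h
      obtain ⟨c', h3, h4⟩ := (hα' c b).1 h2
      exact (pw_succ β n a' b').2 ⟨c', ih a c a' c' h1 ha h3, (hβ' c' b').2 ⟨b, h4, hb⟩⟩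
  have T2 : ∀ (n : ℕ) (a a' b' : X), pw β n a' = some b' → u a = some a' →
      ∃ b, pw α n a = some b ∧ u b = some b' := by
    intro n
    induction n with
    | zero =>
      intro a a' b' h ha
      rw [pw_zero] at h
      subst h
      exact ⟨a, (pw_zero α a a).2 rfl, ha⟩
    | succ n ih =>
      intro a a' b' h ha
      obtain ⟨c', h1, h2⟩ := (pw_succ β n a' b').1 h
      obtain ⟨e, h3, h4⟩ := ih a a' c' h1 ha
      obtain ⟨w, h5, h6⟩ := (hβ' c' b').1 h2
      exact ⟨w, (pw_succ α n a w).2 ⟨e, h3, (hα' e w).2 ⟨c', h4, h5⟩⟩, h6⟩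
  have key : ∀ C : {C : AC α // kd α C ≠ .chain 1}, ∃ x y, C.1 = mkC α x ∧ u x = some y := by
    intro C
    obtain ⟨x, x', h1, h2⟩ := exists_arrow α C.1 C.2
    obtain ⟨y, h3, h4⟩ := (hα' x x').1 h2
    exact ⟨x, y, h1, h3⟩
  choose x y hx hy using key
  refine ⟨fun C => mkC β (y C), ?_, ?_⟩
  · intro C C' h
    obtain ⟨k, hk⟩ := (mkC_eq_iff β _ _).1 h
    have := all_steps' (w := u) T2 hk (hy C) (hy C')
    apply Subtype.ext
    rw [hx C, hx C']
    exact (mkC_eq_iff α _ _).2 ⟨k, this⟩
  · intro C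
    rw [hx C]
    refine rel2_of_points ?_ ?_ ?_
    · rintro k ⟨a, ha⟩ ⟨b, hb⟩
      have h1 := P_add α (P_symm α ha) hb
      have e : -k + (k + 1) = 1 := by ring
      rw [e, P_one] at h1
      obtain ⟨a', h2, h3⟩ := (hα' a b).1 h1
      exact ⟨a', all_steps (w := u) T1 ha (hy C) h2⟩
    · rintro k ⟨a, ha⟩ ⟨b, hb⟩
      have h1 := P_add β (P_symm β ha) hb
      have e : -k + (k + 1) = 1 := by ring
      rw [e, P_one] at h1
      obtain ⟨w, h2, h3⟩ := (hβ' a b).1 h1
      exact ⟨w, all_steps' (w := u) T2 hb (hy C) h3⟩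
    · intro k
      exact ⟨fun h => all_steps (w := u) T1 h (hy C) (hy C),
        fun h => all_steps' (w := u) T2 h (hy C) (hy C)⟩

/-- half of c-conjugacy gives a map of components -/
theorem comp_of_cconj {α β g : X ≃. X} (hg : ∀ x y, α x = some y → ∃ z, g y = some z)
    (he : α.trans g = g.trans β) :
    ∃ f : {C : AC α // kd α C ≠ .chain 1} → AC β, Function.Injective f ∧
      ∀ C, Rel1 (kd α C.1) (kd β (f C)) := by
  have hcom : ∀ x y, (∃ z, α x = some z ∧ g z = some y) ↔ ∃ z, g x = some z ∧ β z = some y := by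
    intro x y
    rw [← trans_iff, ← trans_iff, he]
  have hdom : ∀ x y, α x = some y → ∃ x' y', g x = some x' ∧ g y = some y' ∧
      β x' = some y' := by
    intro x y hxy
    obtain ⟨z, hz⟩ := hg x y hxy
    obtain ⟨w, h1, h2⟩ := (hcom x z).1 ⟨y, hxy, hz⟩
    exact ⟨w, z, h1, hz, h2⟩
  have T1 : ∀ (n : ℕ) (a b a' b' : X), pw α n a = some b → g a = some a' → g b = some b' →
      pw β n a' = some b' := by
    intro n
    induction n with
    | zero =>
      intro a b a' b' h ha hb
      rw [pw_zero] at h ⊢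
      subst h
      exact func' g ha hb
    | succ n ih =>
      intro a b a' b' h ha hb
      obtain ⟨c, h1, h2⟩ := (pw_succ α n a b).1 h
      obtain ⟨c', b'', h3, h4, h5⟩ := hdom c b h2
      rw [func' g hb h4]
      exact (pw_succ β n a' b'').2 ⟨c', ih a c a' c' h1 ha h3, h5⟩
  have T2 : ∀ (n : ℕ) (a a' b' : X), pw β n a' = some b' → g a = some a' →
      ∃ b, pw α n a = some b ∧ g b = some b' := by
    intro n
    induction n with
    | zero =>
      intro a a' b' h ha
      rw [pw_zero] at h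
      subst h
      exact ⟨a, (pw_zero α a a).2 rfl, ha⟩
    | succ n ih =>
      intro a a' b' h ha
      obtain ⟨c', h1, h2⟩ := (pw_succ β n a' b').1 h
      obtain ⟨e, h3, h4⟩ := ih a a' c' h1 ha
      obtain ⟨w, h5, h6⟩ := (hcom e b').2 ⟨c', h4, h2⟩
      exact ⟨w, (pw_succ α n a w).2 ⟨e, h3, h5⟩, h6⟩
  have key : ∀ C : {C : AC α // kd α C ≠ .chain 1}, ∃ x x', C.1 = mkC α x ∧
      α x = some x' := by
    intro C
    exact exists_arrow α C.1 C.2
  choose x x' hx hx' using key
  choose y y' hy hy' hyy using fun C => hdom (x C) (x' C) (hx' C)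
  have hdef : ∀ C k a, P α k (x C) a → ∃ a', g a = some a' := by
    intro C k a ha
    rcases lt_trichotomy k 0 with hk | hk | hk
    · obtain ⟨n, hn⟩ := Int.eq_ofNat_of_zero_le (show 0 ≤ -k - 1 by omega)
      have e : k = -((n + 1 : ℕ) : ℤ) := by push_cast; omega
      rw [e, P_neg, pw_succ'] at ha
      obtain ⟨z, h1, _⟩ := ha
      obtain ⟨a', _, h2, _, _⟩ := hdom a z h1
      exact ⟨a', h2⟩
    · subst hk
      rw [P_zero] at ha
      subst ha
      exact ⟨y C, hy C⟩
    · obtain ⟨n, hn⟩ := Int.eq_ofNat_of_zero_le (show 0 ≤ k - 1 by omega)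
      have e : k = ((n + 1 : ℕ) : ℤ) := by push_cast; omega
      rw [e, P_nat, pw_succ] at ha
      obtain ⟨z, _, h1⟩ := ha
      exact hg z a h1
  refine ⟨fun C => mkC β (y C), ?_, ?_⟩
  · intro C C' h
    obtain ⟨k, hk⟩ := (mkC_eq_iff β _ _).1 h
    have := all_steps' (w := g) T2 hk (hy C) (hy C')
    apply Subtype.ext
    rw [hx C, hx C']
    exact (mkC_eq_iff α _ _).2 ⟨k, this⟩
  · intro C
    rw [hx C]
    refine rel1_of_points ?_ ?_ ?_
    · rintro k ⟨a, ha⟩
      obtain ⟨a', h2⟩ := hdef C k a ha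
      exact ⟨a', all_steps (w := g) T1 ha (hy C) h2⟩
    · rintro k ⟨a, ha⟩ hna ⟨b', hb'⟩
      obtain ⟨a', h2⟩ := hdef C k a ha
      have h3 := all_steps (w := g) T1 ha (hy C) h2
      have h4 := P_add β (P_symm β h3) hb'
      have e : -k + (k + 1) = 1 := by ring
      rw [e, P_one] at h4
      obtain ⟨e', h5, h6⟩ := (hcom a b').2 ⟨a', h2, h4⟩
      exact hna ⟨e', P_step α ha h5⟩
    · intro k
      exact ⟨fun h => all_steps (w := g) T1 h (hy C) (hy C),
        fun h => all_steps' (w := g) T2 h (hy C) (hy C)⟩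

end Pool.Q24.PI
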