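import Pool.Agent.Q24.PI.Kinds

/-!
# Shapes determine kinds; base points of components
-/

namespace Pool.Q24.PI

universe u

variable {X : Type u}

theorem exists_bound (κ κ' : K) (c : ℤ) :
    ∃ N : ℤ, c ≤ N ∧ -c ≤ N ∧ 1 ≤ N ∧ sz κ ≤ N ∧ sz κ' ≤ N := by
  refine ⟨|c| + 1 + |sz κ| + |sz κ'|, ?_, ?_, ?_, ?_, ?_⟩
  · have := le_abs_self c; have := abs_nonneg (sz κ); have := abs_nonneg (sz κ'); omega
  · have := neg_le_abs c; have := abs_nonneg (sz κ); have := abs_nonneg (sz κ'); omega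
  · have := abs_nonneg c; have := abs_nonneg (sz κ); have := abs_nonneg (sz κ'); omega
  · have := abs_nonneg c; have := le_abs_self (sz κ); have := abs_nonneg (sz κ'); omega
  · have := abs_nonneg c; have := abs_nonneg (sz κ); have := le_abs_self (sz κ'); omega

theorem shape_rel1 (κ κ' : K) (hv : Valid κ) (hv' : Valid κ') (c : ℤ)
    (h1 : ∀ k, J κ k → J κ' (k + c))
    (h2 : ∀ k, J κ k → ¬ J κ (k + 1) → ¬ J κ' (k + 1 + c))
    (hp : ∀ k, Per κ k ↔ Per κ' k) : Rel1 κ κ' := by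
  obtain ⟨N, hN1, hN2, hN3, hN4, hN5⟩ := exists_bound κ κ' c
  have a1 := h1 (-1 - c)
  have a2 := h1 (1 - c)
  have a3 := h1 (3 * N)
  have a4 := h1 (-3 * N)
  have a5 := h1 0
  have a6 := h1 (sz κ - 1)
  have b1 := h2 (-1)
  have b2 := h2 0
  have b3 := h2 (3 * N)
  have b4 := h2 (-3 * N)
  have b5 := h2 (-c)
  have b6 := h2 (sz κ - 1)
  have a7 := h1 (N - c)
  rcases κ with n | _ | _ | _ | m <;> rcases κ' with n' | _ | _ | _ | m' <;>
    simp only [J, Valid, Rel1, sz, true_implies, not_true_eq_false, false_implies,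
      imp_false] at * <;> try omega
  · exact cyc_eq hp
  · have := hp n; simp only [Per, dvd_refl, true_iff] at this; omega
  · have := hp n'; simp only [Per, dvd_refl, iff_true] at this; omega
  · have := hp n'; simp only [Per, dvd_refl, iff_true] at this; omega

theorem shape_eq (κ κ' : K) (hv : Valid κ) (hv' : Valid κ') (c : ℤ)
    (h1 : ∀ k, J κ k ↔ J κ' (k + c))
    (hp : ∀ k, Per κ k ↔ Per κ' k) : κ = κ' := by
  obtain ⟨N, hN1, hN2, hN3, hN4, hN5⟩ := exists_bound κ κ' c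
  have a1 := h1 (-1 - c)
  have a2 := h1 (1 - c)
  have a3 := h1 (3 * N)
  have a4 := h1 (-3 * N)
  have a5 := h1 0
  have a6 := h1 (sz κ - 1)
  have a7 := h1 (N - c)
  have a8 := h1 (-c)
  have a9 := h1 (sz κ' - c)
  have a10 := h1 (sz κ)
  have a11 := h1 (sz κ' - 1 - c)
  have a12 := h1 (-1)
  rcases κ with n | _ | _ | _ | m <;> rcases κ' with n' | _ | _ | _ | m' <;>
    simp only [J, Valid, sz, true_iff, iff_true, reduceCtorEq, K.cyc.injEq,
      K.chain.injEq] at * <;> try omega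
  · exact cyc_eq hp
  · have := hp n; simp only [Per, dvd_refl, true_iff] at this; omega
  · have := hp n'; simp only [Per, dvd_refl, iff_true] at this; omega

theorem rel2_shape (κ κ' : K) (hv : Valid κ) (hv' : Valid κ') (h : Rel2 κ κ') :
    ∃ c : ℤ, J κ' c ∧ (∀ k, J κ k → J κ (k + 1) → J κ' (k + c)) ∧
      (∀ k, J κ' (k + c) → J κ' (k + 1 + c) → J κ (k + 1)) ∧ (∀ k, Per κ k ↔ Per κ' k) := by
  rcases κ with n | _ | _ | _ | m <;> rcases κ' with n' | _ | _ | _ | m' <;>
    simp only [Rel2] at h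
  · subst h
    exact ⟨0, trivial, fun _ _ _ => trivial, fun _ _ _ => trivial, fun _ => Iff.rfl⟩
  · exact ⟨0, trivial, fun _ _ _ => trivial, fun _ _ _ => trivial, fun _ => Iff.rfl⟩
  · refine ⟨0, ?_, ?_, ?_, fun _ => Iff.rfl⟩ <;> simp only [J] <;> intros <;> omega
  · refine ⟨0, ?_, ?_, ?_, fun _ => Iff.rfl⟩ <;> simp only [J] <;> intros <;> omega
  · simp only [Valid] at hv hv'
    by_cases hm : m' = m + 1
    · refine ⟨1, ?_, ?_, ?_, fun _ => Iff.rfl⟩ <;> simp only [J] <;> intros <;> omega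
    · refine ⟨0, ?_, ?_, ?_, fun _ => Iff.rfl⟩ <;> simp only [J] <;> intros <;> omega

theorem rel1_shape (κ κ' : K) (hv : Valid κ) (hv' : Valid κ') (h : Rel1 κ κ') :
    ∃ c : ℤ, J κ' c ∧ (∀ k, J κ k → J κ' (k + c)) ∧
      (∀ k, J κ k → ¬ J κ (k + 1) → ¬ J κ' (k + 1 + c)) ∧ (∀ k, Per κ k ↔ Per κ' k) := by
  rcases κ with n | _ | _ | _ | m <;> rcases κ' with n' | _ | _ | _ | m' <;>
    simp only [Rel1] at h
  · subst h
    exact ⟨0, trivial, fun _ _ => trivial, fun _ _ h => absurd trivial h, fun _ => Iff.rfl⟩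
  · exact ⟨0, trivial, fun _ _ => trivial, fun _ _ h => absurd trivial h, fun _ => Iff.rfl⟩
  · refine ⟨0, trivial, fun _ _ => trivial, ?_, fun _ => Iff.rfl⟩
    simp only [J]; intros; omega
  · refine ⟨0, ?_, ?_, ?_, fun _ => Iff.rfl⟩ <;> simp only [J] <;> intros <;> omega
  · refine ⟨0, ?_, ?_, ?_, fun _ => Iff.rfl⟩ <;> simp only [J] <;> intros <;> omega
  · simp only [Valid] at hv
    refine ⟨-(m - 1 : ℤ), ?_, ?_, ?_, fun _ => Iff.rfl⟩ <;> simp only [J] <;> intros <;> omega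
  · simp only [Valid] at hv hv'
    refine ⟨(m' : ℤ) - m, ?_, ?_, ?_, fun _ => Iff.rfl⟩ <;> simp only [J] <;> intros <;> omega

/-- uniqueness of the kind -/
theorem kind_unique (α : X ≃. X) {κ κ' : K} {x y : X} (hx : HK α κ x) (hy : HK α κ' y) {k : ℤ}
    (h : P α k x y) : κ = κ' := by
  refine shape_eq κ κ' (hk_valid α κ x hx) (hk_valid α κ' y hy) (-k) ?_ ?_
  · intro j
    rw [← hk_D α κ x hx, ← hk_D α κ' y hy, D_shift α h]
    have : k + (j + -k) = j := by ring
    rw [this]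
  · intro j
    rw [← hk_P α κ x hx, ← hk_P α κ' y hy]
    constructor
    · intro h1
      have := P_add α (P_add α (P_symm α h) h1) h
      have e : -k + j + k = j := by ring
      rwa [e] at this
    · intro h1
      have := P_add α (P_add α h h1) (P_symm α h)
      have e : k + j + -k = j := by ring
      rwa [e] at this

/-- The set of all components. -/
def AC (α : X ≃. X) : Type u := {C : Set X // ∃ x, C = comp α x}

theorem ac_exists (α : X ≃. X) (C : AC α) : ∃ κ y, C.1 = comp α y ∧ HK α κ y := by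
  obtain ⟨x, hx⟩ := C.2
  obtain ⟨κ, y, k, hk, hy⟩ := exists_kind α x
  exact ⟨κ, y, hx.trans (comp_eq α k hk), hy⟩

/-- the kind of a component -/
noncomputable def kd (α : X ≃. X) (C : AC α) : K := (ac_exists α C).choose

/-- the base point of a component -/
noncomputable def bp (α : X ≃. X) (C : AC α) : X := (ac_exists α C).choose_spec.choose

theorem bp_comp (α : X ≃. X) (C : AC α) : C.1 = comp α (bp α C) :=
  (ac_exists α C).choose_spec.choose_spec.1

theorem bp_kind (α : X ≃. X) (C : AC α) : HK α (kd α C) (bp α C) :=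
  (ac_exists α C).choose_spec.choose_spec.2

/-- the component of a point, as an element of `AC` -/
def mkC (α : X ≃. X) (x : X) : AC α := ⟨comp α x, x, rfl⟩

theorem mkC_eq_iff (α : X ≃. X) (x y : X) : mkC α x = mkC α y ↔ ∃ k : ℤ, P α k x y := by
  rw [← comp_eq_iff]
  exact Subtype.ext_iff

theorem mkC_bp (α : X ≃. X) (C : AC α) : mkC α (bp α C) = C :=
  Subtype.ext (bp_comp α C).symm

theorem bp_P (α : X ≃. X) (x : X) : ∃ k : ℤ, P α k (bp α (mkC α x)) x :=
  (mkC_eq_iff α _ _).1 (mkC_bp α (mkC α x))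

theorem kd_eq (α : X ≃. X) {κ : K} {x : X} (h : HK α κ x) : kd α (mkC α x) = κ := by
  obtain ⟨k, hk⟩ := bp_P α x
  exact kind_unique α (bp_kind α _) h hk

theorem kd_valid (α : X ≃. X) (C : AC α) : Valid (kd α C) := hk_valid α _ _ (bp_kind α C)

/-- a component of kind different from `chain 1` contains an arrow -/
theorem exists_arrow (α : X ≃. X) (C : AC α) (h : kd α C ≠ .chain 1) :
    ∃ x y, C = mkC α x ∧ α x = some y := by
  have hb := bp_kind α C
  have hv := kd_valid α C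
  have hD := hk_D α _ _ hb
  have key : D α 1 (bp α C) ∨ D α (-1) (bp α C) := by
    rw [hD, hD]
    rcases hk : kd α C with n | _ | _ | _ | m
    · left; trivial
    · left; trivial
    · left; show (0 : ℤ) ≤ 1; norm_num
    · right; show (-1 : ℤ) ≤ 0; norm_num
    · left
      rw [hk] at h hv
      have h1 : m ≠ 1 := by rintro rfl; exact h rfl
      have h2 : 0 < m := hv
      refine ⟨by norm_num, ?_⟩
      omega
  rcases key with ⟨y, hy⟩ | ⟨y, hy⟩
  · exact ⟨bp α C, y, (mkC_bp α C).symm, (P_one α _ _).1 hy⟩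
  · have h2 := P_symm α hy
    rw [neg_neg, P_one] at h2
    refine ⟨y, bp α C, ?_, h2⟩
    rw [← mkC_bp α C]
    rw [mkC_eq_iff]
    refine ⟨-1, ?_⟩
    exact hy

theorem kd_ne_of_arrow (α : X ≃. X) {x y : X} (h : α x = some y) : kd α (mkC α x) ≠ .chain 1 := by
  intro hk
  have hb := bp_kind α (mkC α x)
  rw [hk] at hb
  have hD := hk_D α _ _ hb
  obtain ⟨k, hkk⟩ := bp_P α x
  have h1 : D α k (bp α (mkC α x)) := ⟨x, hkk⟩
  have h2 : D α (k + 1) (bp α (mkC α x)) := ⟨y, P_step α hkk h⟩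
  rw [hD] at h1 h2
  simp only [J] at h1 h2
  omega

end Pool.Q24.PI
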